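import Mathlib
import Pool.Agent.Helper80.SG.Ratio

set_option autoImplicit false

open IsDedekindDomain NumberField Polynomial

namespace Pool.Agent.Helper80.LA

open Pool.Agent.Helper80.UC Pool.Agent.Helper80.QP Pool.Agent.Helper80.SG

variable {K : Type} [Field K] [NumberField K]

/-- the abstract finiteness for squares -/
lemma abs_fin2 {d : ℕ} {M : Finset K} {S : Set (Pl K)} (H0 : GM0 M d) (hS : S.Finite)
    (hd : 7 ≤ d) :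
    {t : K | (∀ η ∈ M, η ≠ 1 → t ≠ η) ∧ ∀ v ∉ S, ∃ k : ℤ, ∀ η ∈ M, η ≠ 1 →
      (2 : ℤ) ∣ o v (t - η) - k}.Finite := by
  classical
  have hcard : (M.erase 1).card = d - 1 := by
    rw [Finset.card_erase_of_mem H0.one, H0.card]
  obtain ⟨s, hs, hsc⟩ := Finset.exists_subset_card_eq (s := M.erase 1) (n := 6)
    (by rw [hcard]; omega)
  obtain ⟨T, hT0, hT⟩ := selm 2 (by norm_num) S hS
  have hfin : (⋃ δ ∈ (T : Set K), {t : K | ∃ y, y ^ 2 = δ⁻¹ * ∏ ρ ∈ s, (t - ρ)}).Finite :=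
    T.finite_toSet.biUnion fun δ hδ => he_split s (by omega) δ⁻¹ (inv_ne_zero (hT0 δ hδ))
  refine hfin.subset ?_
  rintro t ⟨ht, hv⟩
  have hne : ∀ ρ ∈ s, t - ρ ≠ 0 := fun ρ hρ => sub_ne_zero.mpr
    (ht ρ (Finset.mem_of_mem_erase (hs hρ)) (Finset.mem_erase.mp (hs hρ)).1)
  have hprod : ∏ ρ ∈ s, (t - ρ) ≠ 0 := Finset.prod_ne_zero_iff.mpr hne
  obtain ⟨δ, hδ, y, hy, h⟩ := hT _ hprod (by
    intro v hvS
    obtain ⟨k, hk⟩ := hv v hvS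
    rw [o_prod v s _ hne]
    have h1 : (2 : ℤ) ∣ ∑ ρ ∈ s, (o v (t - ρ) - k) := Finset.dvd_sum fun ρ hρ =>
      hk ρ (Finset.mem_of_mem_erase (hs hρ)) (Finset.mem_erase.mp (hs hρ)).1
    rw [Finset.sum_sub_distrib, Finset.sum_const, hsc] at h1
    have h2 : ((6 : ℕ) • k : ℤ) = 2 * (3 * k) := by rw [nsmul_eq_mul]; push_cast; ring
    rw [h2] at h1
    have h3 := dvd_add h1 (Dvd.intro (3 * k) (rfl : (2 : ℤ) * (3 * k) = 2 * (3 * k)))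
    rw [sub_add_cancel] at h3
    exact_mod_cast h3)
  simp only [Set.mem_iUnion]
  refine ⟨δ, hδ, y, ?_⟩
  rw [h, ← mul_assoc, inv_mul_cancel₀ (hT0 δ hδ), one_mul]

/-- the admissible pairs `(d, m)` -/
def Adm (d m : ℕ) : Prop := (5 ≤ d ∧ 3 ≤ m) ∨ (4 ≤ d ∧ 5 ≤ m) ∨ (7 ≤ d ∧ 2 ≤ m)

/-- the abstract finiteness -/
lemma abs_fin' {d m : ℕ} (hdm : Adm d m) {M : Finset K} {S : Set (Pl K)} (H0 : GM0 M d)
    (hS : S.Finite) :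
    {t : K | (∀ η ∈ M, η ≠ 1 → t ≠ η) ∧ ∀ v ∉ S, ∃ k : ℤ, ∀ η ∈ M, η ≠ 1 →
      (m : ℤ) ∣ o v (t - η) - k}.Finite := by
  have h3 : (4 ≤ d ∧ 3 ≤ m ∧ (5 ≤ d ∨ 5 ≤ m)) ∨ (7 ≤ d ∧ m = 2) := by
    rcases hdm with h | h | h <;> omega
  rcases h3 with ⟨h1, h2, h3⟩ | ⟨h1, h2⟩
  · exact abs_fin H0 hS h1 h2 h3
  · subst h2
    exact_mod_cast abs_fin2 H0 hS h1

end Pool.Agent.Helper80.LA
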