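import Mathlib
import Pool.Agent.Helper80.LA.Abs

set_option autoImplicit false

open IsDedekindDomain NumberField Polynomial

namespace Pool.Agent.Helper80.LA

open Pool.Agent.Helper80.UC Pool.Agent.Helper80.QP Pool.Agent.Helper80.SG

section fld

variable {K : Type} [Field K]

/-- the map `z ↦ α z^n + b` on `ℙ¹(K) = K ∪ {∞}` -/
noncomputable def F (n : ℤ) (α b : K) : Option K → Option K
  | none => if 0 < n then none else some b
  | some x => by
      classical
      exact if x = 0 then (if 0 < n then some b else none) else some (α * x ^ n + b)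

lemma F_some {n : ℤ} {α b x : K} (hx : x ≠ 0) : F n α b (some x) = some (α * x ^ n + b) := by
  simp [F, hx]

lemma F_zero_pos {n : ℤ} {α b : K} (hn : 0 < n) : F n α b (some 0) = some b := by
  simp [F, hn]

lemma F_zero_neg {n : ℤ} {α b : K} (hn : ¬ 0 < n) : F n α b (some 0) = none := by
  simp [F, hn]

lemma F_none_pos {n : ℤ} {α b : K} (hn : 0 < n) : F n α b none = none := by
  simp [F, hn]

lemma F_none_neg {n : ℤ} {α b : K} (hn : ¬ 0 < n) : F n α b none = some b := by
  simp [F, hn]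

end fld

variable {K : Type} [Field K] [NumberField K] {v : Pl K} {N A : ℤ}

lemma o_zpow (v : Pl K) {x : K} (n : ℤ) : o v (x ^ n) = n * o v x := by
  obtain ⟨k, rfl | rfl⟩ := n.eq_nat_or_neg
  · rw [zpow_natCast, o_pow]
  · rw [zpow_neg, o_inv, zpow_natCast, o_pow]; ring

/-- affine change of the valuation -/
noncomputable def s (v : Pl K) (N A : ℤ) (x : K) : ℤ := N * o v x + A

lemma s_neg (x : K) : s v N A (-x) = s v N A x := by simp [s]

lemma s_comm (x y : K) : s v N A (x - y) = s v N A (y - x) := by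
  rw [s, s, o_sub_comm]

lemma s_unit {η x : K} (hη : η ≠ 0) (hη0 : o v η = 0) (hx : x ≠ 0) :
    s v N A (η * x) = s v N A x := by
  rw [s, s, o_mul v hη hx, hη0, zero_add]

lemma s_add_ge (hN : 0 < N) {x y : K} (hxy : x + y ≠ 0) {k : ℤ} (hx : x = 0 ∨ k ≤ s v N A x)
    (hy : y = 0 ∨ k ≤ s v N A y) : k ≤ s v N A (x + y) := by
  rcases eq_or_ne x 0 with h0 | h0
  · subst h0
    rw [zero_add] at hxy ⊢
    exact hy.resolve_left hxy
  rcases eq_or_ne y 0 with h1 | h1
  · subst h1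
    rw [add_zero]
    exact hx.resolve_left h0
  have hx' := hx.resolve_left h0
  have hy' := hy.resolve_left h1
  have h2 := o_add_ge v hxy (k := min (o v x) (o v y)) (Or.inr (min_le_left _ _))
    (Or.inr (min_le_right _ _))
  simp only [s] at hx' hy' ⊢
  rcases min_choice (o v x) (o v y) with h | h
  · rw [h] at h2
    nlinarith
  · rw [h] at h2
    nlinarith

lemma s_lt_iff (hN : 0 < N) {x y : K} : s v N A x < s v N A y ↔ o v x < o v y := by
  simp only [s]
  constructor
  · intro h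
    by_contra h1
    push Not at h1
    nlinarith
  · intro h
    nlinarith

lemma s_eq_iff (hN : 0 < N) {x y : K} : s v N A x = s v N A y ↔ o v x = o v y := by
  simp only [s]
  constructor
  · intro h
    have : N * o v x = N * o v y := by linarith
    exact mul_left_cancel₀ hN.ne' this
  · intro h
    rw [h]

lemma s_add_lt (hN : 0 < N) {x y : K} (hx : x ≠ 0) (h : y = 0 ∨ s v N A x < s v N A y) :
    x + y ≠ 0 ∧ s v N A (x + y) = s v N A x := by
  have h1 := o_add_lt' v hx (y := y) (h.imp id (fun h => (s_lt_iff hN).mp h))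
  exact ⟨h1.1, (s_eq_iff hN).mpr h1.2⟩

/-- `min(s,0)` -/
noncomputable def ms (v : Pl K) (N A : ℤ) (x : K) : ℤ := by
  classical exact if x = 0 then 0 else min (s v N A x) 0

@[simp] lemma ms_zero : ms v N A 0 = 0 := by simp [ms]

lemma ms_of_ne {x : K} (hx : x ≠ 0) : ms v N A x = min (s v N A x) 0 := by simp [ms, hx]

lemma ms_le (x : K) : ms v N A x ≤ 0 := by
  by_cases hx : x = 0
  · subst hx; simp
  · rw [ms_of_ne hx]; exact min_le_right _ _

lemma ms_le_s {x : K} (hx : x ≠ 0) : ms v N A x ≤ s v N A x := by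
  rw [ms_of_ne hx]; exact min_le_left _ _

lemma ms_unit {η x : K} (hη : η ≠ 0) (hη0 : o v η = 0) : ms v N A (η * x) = ms v N A x := by
  by_cases hx : x = 0
  · subst hx; simp
  · rw [ms_of_ne hx, ms_of_ne (mul_ne_zero hη hx), s_unit hη hη0 hx]

/-- the difference is at least the sum of the `ms` -/
lemma ms_sub (hN : 0 < N) {x y : K} (hxy : x ≠ y) : ms v N A x + ms v N A y ≤ s v N A (x - y) := by
  have h0 := sub_ne_zero.mpr hxy
  rw [sub_eq_add_neg] at h0 ⊢
  refine s_add_ge hN h0 ?_ ?_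
  · by_cases hx : x = 0
    · exact Or.inl hx
    · right
      have := ms_le_s (v := v) (N := N) (A := A) hx
      have := ms_le (v := v) (N := N) (A := A) y
      linarith
  · by_cases hy : y = 0
    · left; rw [hy, neg_zero]
    · right
      rw [s_neg]
      have := ms_le_s (v := v) (N := N) (A := A) hy
      have := ms_le (v := v) (N := N) (A := A) x
      linarith

/-- closeness -/
noncomputable def cl (v : Pl K) (N A : ℤ) : Option K → Option K → ℤ
  | none, none => 0
  | none, some y => - ms v N A y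
  | some x, none => - ms v N A x
  | some x, some y => s v N A (x - y) - ms v N A x - ms v N A y

lemma cl_comm (P Q : Option K) : cl v N A P Q = cl v N A Q P := by
  cases P <;> cases Q <;> simp only [cl]
  rw [s_comm]; ring

lemma cl_nonneg (hN : 0 < N) {P Q : Option K} (h : P ≠ Q) : 0 ≤ cl v N A P Q := by
  cases P with
  | none => cases Q with
    | none => exact absurd rfl h
    | some y => simp only [cl]; have := ms_le (v := v) (N := N) (A := A) y; linarith
  | some x => cases Q with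
    | none => simp only [cl]; have := ms_le (v := v) (N := N) (A := A) x; linarith
    | some y =>
      simp only [cl]
      have := ms_sub (v := v) (A := A) hN (show x ≠ y from fun h' => h (by rw [h']))
      linarith

/-- the standing numerical data: `n = ± d` -/
structure Sg (d : ℕ) (n χ : ℤ) : Prop where
  hd : 2 ≤ d
  h : (χ = 0 ∧ n = d) ∨ (χ = 1 ∧ n = -d)

variable {d : ℕ} {n χ : ℤ} {α b : K} {M : Finset K}

lemma Sg.N_pos (H : Sg d n χ) : (0 : ℤ) < d - 1 + 2 * χ := by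
  have := H.hd
  rcases H.h with ⟨h1, h2⟩ | ⟨h1, h2⟩ <;> omega

lemma Sg.n_ne (H : Sg d n χ) : n ≠ 0 := by
  have := H.hd
  rcases H.h with ⟨h1, h2⟩ | ⟨h1, h2⟩ <;> omega

lemma Sg.pos_iff (H : Sg d n χ) : 0 < n ↔ χ = 0 := by
  have := H.hd
  rcases H.h with ⟨h1, h2⟩ | ⟨h1, h2⟩ <;> omega

/-- the function `s` attached to `(n, α)` -/
noncomputable abbrev S (v : Pl K) (d : ℕ) (χ : ℤ) (α : K) (x : K) : ℤ :=
  s v (d - 1 + 2 * χ) ((1 - 2 * χ) * o v α) x

noncomputable abbrev mS (v : Pl K) (d : ℕ) (χ : ℤ) (α : K) (x : K) : ℤ :=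
  ms v (d - 1 + 2 * χ) ((1 - 2 * χ) * o v α) x

noncomputable abbrev CL (v : Pl K) (d : ℕ) (χ : ℤ) (α : K) (P Q : Option K) : ℤ :=
  cl v (d - 1 + 2 * χ) ((1 - 2 * χ) * o v α) P Q

lemma S_pow (H : Sg d n χ) (hα : α ≠ 0) {x : K} (hx : x ≠ 0) :
    S v d χ α (α * x ^ n) = n * S v d χ α x := by
  simp only [S, s]
  rw [o_mul v hα (zpow_ne_zero _ hx), o_zpow]
  rcases H.h with ⟨rfl, rfl⟩ | ⟨rfl, rfl⟩ <;> ring

/-- difference of powers -/
lemma pow_diff (H : Sg d n χ) (HM : GM0 M d) {x y : K} (hx : x ≠ 0) (hy : y ≠ 0)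
    (hne : ∀ η ∈ M, x ≠ η * y) : x ^ n ≠ y ^ n ∧
      o v (x ^ n - y ^ n) = ∑ η ∈ M, o v (x - η * y) - χ * d * (o v x + o v y) := by
  have hall : ∀ η ∈ M, x - η * y ≠ 0 := fun η hη => sub_ne_zero.mpr (hne η hη)
  have hprod : x ^ d - y ^ d ≠ 0 := by
    rw [HM.fac]; exact Finset.prod_ne_zero_iff.mpr hall
  have hoprod : o v (x ^ d - y ^ d) = ∑ η ∈ M, o v (x - η * y) := by
    rw [HM.fac, o_prod v M _ hall]
  rcases H.h with ⟨rfl, rfl⟩ | ⟨rfl, rfl⟩
  · rw [zpow_natCast, zpow_natCast]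
    exact ⟨sub_ne_zero.mp hprod, by rw [hoprod]; ring⟩
  · have e : x ^ (-(d : ℤ)) - y ^ (-(d : ℤ)) = -(x ^ d - y ^ d) / (x ^ d * y ^ d) := by
      rw [zpow_neg, zpow_neg, zpow_natCast, zpow_natCast]
      have := pow_ne_zero d hx
      have := pow_ne_zero d hy
      field_simp
      ring
    have hden : x ^ d * y ^ d ≠ 0 := mul_ne_zero (pow_ne_zero _ hx) (pow_ne_zero _ hy)
    refine ⟨sub_ne_zero.mp ?_, ?_⟩
    · rw [e]
      exact div_ne_zero (neg_ne_zero.mpr hprod) hden
    · rw [e, o_div v (neg_ne_zero.mpr hprod) hden, o_neg, hoprod,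
        o_mul v (pow_ne_zero _ hx) (pow_ne_zero _ hy), o_pow, o_pow]
      ring

lemma S_diff (H : Sg d n χ) (HM : GM0 M d) (hα : α ≠ 0) {x y : K} (hx : x ≠ 0) (hy : y ≠ 0)
    (hne : ∀ η ∈ M, x ≠ η * y) : α * x ^ n + b ≠ α * y ^ n + b ∧
      S v d χ α ((α * x ^ n + b) - (α * y ^ n + b)) =
        ∑ η ∈ M, S v d χ α (x - η * y) - χ * d * (S v d χ α x + S v d χ α y) := by
  obtain ⟨h1, h2⟩ := pow_diff (v := v) H HM hx hy hne
  have e : (α * x ^ n + b) - (α * y ^ n + b) = α * (x ^ n - y ^ n) := by ring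
  refine ⟨?_, ?_⟩
  · rw [← sub_ne_zero, e]
    exact mul_ne_zero hα (sub_ne_zero.mpr h1)
  · rw [e]
    simp only [S, s]
    rw [o_mul v hα (sub_ne_zero.mpr h1), h2, Finset.sum_add_distrib, ← Finset.mul_sum,
      Finset.sum_const, HM.card, nsmul_eq_mul]
    rcases H.h with ⟨rfl, rfl⟩ | ⟨rfl, rfl⟩ <;> ring

/-- equal images -/
lemma pow_ne_of (HM : GM0 M d) {x y : K} (hxy : x ^ d ≠ y ^ d) : ∀ η ∈ M, x ≠ η * y := by
  intro η hη h0
  apply hxy
  have := HM.fac x y
  rw [Finset.prod_eq_zero (f := fun η => x - η * y) hη (sub_eq_zero.mpr h0)] at this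
  exact sub_eq_zero.mp this

lemma zpow_eq_iff (H : Sg d n χ) {x y : K} : x ^ n = y ^ n ↔ x ^ d = y ^ d := by
  rcases H.h with ⟨rfl, rfl⟩ | ⟨rfl, rfl⟩
  · rw [zpow_natCast, zpow_natCast]
  · rw [zpow_neg, zpow_neg, zpow_natCast, zpow_natCast, inv_inj]

end Pool.Agent.Helper80.LA
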