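import Mathlib
import Pool.Agent.Helper80.LA.Loc

set_option autoImplicit false

open IsDedekindDomain NumberField Polynomial

namespace Pool.Agent.Helper80.LA

open Pool.Agent.Helper80.UC Pool.Agent.Helper80.QP Pool.Agent.Helper80.SG

variable {K : Type} [Field K] [NumberField K] {v : Pl K}
variable {d : ℕ} {n χ : ℤ} {α b : K} {M : Finset K}

/-- `ms` of the image at a good place -/
lemma ms_image (H : Sg d n χ) (hα : α ≠ 0) (hb : b = 0 ∨ 0 ≤ S v d χ α b) {x : K} (hx : x ≠ 0) :
    mS v d χ α (α * x ^ n + b) = d * mS v d χ α x - χ * d * S v d χ α x := by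
  have hN := H.N_pos
  have hX0 : α * x ^ n ≠ 0 := mul_ne_zero hα (zpow_ne_zero _ hx)
  have hXs := S_pow (v := v) H hα hx
  have hd := H.hd
  have hd' : (2 : ℤ) ≤ d := by exact_mod_cast hd
  have hnn : ∀ k : ℤ, k < 0 → S v d χ α (α * x ^ n) = k →
      mS v d χ α (α * x ^ n + b) = k := by
    intro k hk hXk
    have h1 := s_add_lt (v := v) hN hX0 (y := b) (by
      rcases hb with h | h
      · exact Or.inl h
      · right
        exact (show S v d χ α (α * x ^ n) < 0 by rw [hXk]; exact hk).trans_le h)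
    rw [mS, ms_of_ne h1.1]
    have h2 : s v (d - 1 + 2 * χ) ((1 - 2 * χ) * o v α) (α * x ^ n + b) = k := h1.2.trans hXk
    rw [h2, min_eq_left hk.le]
  have hge : 0 ≤ S v d χ α (α * x ^ n) → mS v d χ α (α * x ^ n + b) = 0 := by
    intro h
    by_cases h0 : α * x ^ n + b = 0
    · rw [h0]; exact ms_zero
    · rw [mS, ms_of_ne h0]
      exact min_eq_right (s_add_ge hN h0 (Or.inr h) hb)
  rcases H.h with ⟨h1, h2⟩ | ⟨h1, h2⟩
  · rcases lt_or_ge (S v d χ α x) 0 with hs | hs
    · have hm : mS v d χ α x = S v d χ α x := by rw [mS, ms_of_ne hx, min_eq_left hs.le]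
      rw [hm, hnn (d * S v d χ α x) (by nlinarith) (by rw [hXs, h2]), h1]; ring
    · have hm : mS v d χ α x = 0 := by rw [mS, ms_of_ne hx, min_eq_right hs]
      rw [hm, hge (by rw [hXs, h2]; exact mul_nonneg (by omega) hs), h1]; ring
  · rcases lt_or_ge 0 (S v d χ α x) with hs | hs
    · have hm : mS v d χ α x = 0 := by rw [mS, ms_of_ne hx, min_eq_right hs.le]
      rw [hm, hnn (-d * S v d χ α x) (by nlinarith) (by rw [hXs, h2]), h1]; ring
    · have hm : mS v d χ α x = S v d χ α x := by rw [mS, ms_of_ne hx, min_eq_left hs]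
      rw [hm, hge (by rw [hXs, h2]; nlinarith), h1]; ring

/-- closeness of the images at a good place -/
lemma CL_image (H : Sg d n χ) (HM : GM v M d) (hα : α ≠ 0) (hb : b = 0 ∨ 0 ≤ S v d χ α b)
    {x y : K} (hx : x ≠ 0) (hy : y ≠ 0) (hne : ∀ η ∈ M, x ≠ η * y) :
    CL v d χ α (some (α * x ^ n + b)) (some (α * y ^ n + b)) =
      ∑ η ∈ M, CL v d χ α (some x) (some (η * y)) := by
  have h1 := S_diff (v := v) (b := b) H HM.toGM0 hα hx hy hne
  have h2 : ∑ η ∈ M, CL v d χ α (some x) (some (η * y)) =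
      ∑ η ∈ M, S v d χ α (x - η * y) - d * (mS v d χ α x + mS v d χ α y) := by
    have : ∀ η ∈ M, CL v d χ α (some x) (some (η * y)) =
        S v d χ α (x - η * y) - (mS v d χ α x + mS v d χ α y) := by
      intro η hη
      simp only [CL, cl]
      rw [ms_unit (HM.ne η hη) (HM.unit η hη)]
      ring
    rw [Finset.sum_congr rfl this, Finset.sum_sub_distrib, Finset.sum_const, HM.card, nsmul_eq_mul]
  rw [h2]
  have h3 := ms_image (v := v) H hα hb hx
  have h4 := ms_image (v := v) H hα hb hy
  simp only [CL, cl]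
  simp only [mS, S] at h1 h3 h4 ⊢
  rw [h1.2, h3, h4]
  ring

/-- monotonicity of the closeness at a good place -/
lemma CL_mono (H : Sg d n χ) (HM : GM v M d) (hα : α ≠ 0) (hb : b = 0 ∨ 0 ≤ S v d χ α b)
    {P Q : Option K} (hPQ : P ≠ Q) (hF : F n α b P ≠ F n α b Q) :
    CL v d χ α P Q ≤ CL v d χ α (F n α b P) (F n α b Q) := by
  have hN := H.N_pos
  have hd' : (2 : ℤ) ≤ d := by exact_mod_cast H.hd
  have hmb : mS v d χ α b = 0 := by
    by_cases h0 : b = 0
    · rw [h0]; exact ms_zero
    · rw [mS, ms_of_ne h0, min_eq_right (hb.resolve_left h0)]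
  -- the cases with at least one of the points in `{0, ∞}`
  have keyN : ∀ y : K, y ≠ 0 → CL v d χ α none (some y) ≤
      CL v d χ α (F n α b none) (F n α b (some y)) := by
    intro y hy
    have h4 := ms_image (v := v) H hα hb hy
    have hS := S_pow (v := v) H hα hy
    have hle := ms_le (v := v) (N := d - 1 + 2 * χ) (A := (1 - 2 * χ) * o v α) y
    rw [F_some hy]
    rcases H.h with ⟨h1, h2⟩ | ⟨h1, h2⟩
    · have hn : 0 < n := H.pos_iff.mpr h1
      rw [F_none_pos hn]
      simp only [CL, cl]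
      simp only [mS, S] at h4
      rw [h4, h1]
      rw [h1] at hle
      nlinarith
    · have hn : ¬ 0 < n := by omega
      rw [F_none_neg hn]
      simp only [CL, cl]
      have e : b - (α * y ^ n + b) = -(α * y ^ n) := by ring
      rw [e, s_neg]
      simp only [mS, S] at h4 hS hmb
      rw [hS, hmb, h4, h1, h2]
      rw [h1] at hle
      nlinarith
  have keyZ : ∀ y : K, y ≠ 0 → CL v d χ α (some 0) (some y) ≤
      CL v d χ α (F n α b (some 0)) (F n α b (some y)) := by
    intro y hy
    have h4 := ms_image (v := v) H hα hb hy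
    have hS := S_pow (v := v) H hα hy
    have hle := ms_le_s (v := v) (N := d - 1 + 2 * χ) (A := (1 - 2 * χ) * o v α) hy
    rw [F_some hy]
    rcases H.h with ⟨h1, h2⟩ | ⟨h1, h2⟩
    · have hn : 0 < n := H.pos_iff.mpr h1
      rw [F_zero_pos hn]
      simp only [CL, cl]
      have e : b - (α * y ^ n + b) = -(α * y ^ n) := by ring
      rw [e, s_neg, zero_sub, s_neg, ms_zero]
      simp only [mS, S] at h4 hS hmb
      rw [hS, hmb, h4, h1, h2]
      rw [h1] at hle
      nlinarith
    · have hn : ¬ 0 < n := by omega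
      rw [F_zero_neg hn]
      simp only [CL, cl]
      rw [zero_sub, s_neg, ms_zero]
      simp only [mS, S] at h4
      rw [h4, h1]
      rw [h1] at hle
      nlinarith
  have hsym : ∀ P Q : Option K, CL v d χ α P Q = CL v d χ α Q P := fun P Q => cl_comm P Q
  cases P with
  | none => cases Q with
    | none => exact absurd rfl hPQ
    | some y =>
      by_cases hy : y = 0
      · subst hy
        refine le_trans ?_ (cl_nonneg hN hF)
        simp [CL, cl]
      · exact keyN y hy
  | some x => cases Q with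
    | none =>
      by_cases hx : x = 0
      · subst hx
        refine le_trans ?_ (cl_nonneg hN hF)
        simp [CL, cl]
      · rw [hsym, hsym (F n α b (some x))]
        exact keyN x hx
    | some y =>
      have hxy : x ≠ y := fun h => hPQ (by rw [h])
      by_cases hx : x = 0
      · subst hx
        exact keyZ y hxy.symm
      · by_cases hy : y = 0
        · subst hy
          rw [hsym, hsym (F n α b (some x))]
          exact keyZ x hx
        · rw [F_some hx, F_some hy] at hF ⊢
          have hne : ∀ η ∈ M, x ≠ η * y := by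
            apply pow_ne_of HM.toGM0
            intro h
            apply hF
            rw [(zpow_eq_iff H).mpr h]
          rw [CL_image H HM hα hb hx hy hne]
          have h1 : ∀ η ∈ M, 0 ≤ CL v d χ α (some x) (some (η * y)) := fun η hη =>
            cl_nonneg hN (fun h => hne η hη (Option.some_injective _ h))
          have h2 := Finset.single_le_sum (f := fun η => CL v d χ α (some x) (some (η * y)))
            h1 HM.one
          simp only [one_mul] at h2
          exact h2

/-- for two points of `K*` -/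
lemma CL_two (H : Sg d n χ) (HM : GM v M d) (hα : α ≠ 0) (hb : b = 0 ∨ 0 ≤ S v d χ α b)
    {x y : K} (hx : x ≠ 0) (hy : y ≠ 0) (hF : F n α b (some x) ≠ F n α b (some y)) :
    (∀ η ∈ M, x ≠ η * y) ∧ (∀ η ∈ M, 0 ≤ CL v d χ α (some x) (some (η * y))) ∧
    (∀ η ∈ M, CL v d χ α (some x) (some (η * y)) ≤
      CL v d χ α (F n α b (some x)) (F n α b (some y))) ∧
    ∀ η ∈ M, η ≠ 1 → CL v d χ α (some x) (some y) + CL v d χ α (some x) (some (η * y)) ≤
      CL v d χ α (F n α b (some x)) (F n α b (some y)) := by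
  classical
  have hN := H.N_pos
  rw [F_some hx, F_some hy] at hF ⊢
  have hne : ∀ η ∈ M, x ≠ η * y := by
    apply pow_ne_of HM.toGM0
    intro h
    apply hF
    rw [(zpow_eq_iff H).mpr h]
  have h1 : ∀ η ∈ M, 0 ≤ CL v d χ α (some x) (some (η * y)) := fun η hη =>
    cl_nonneg hN (fun h => hne η hη (Option.some_injective _ h))
  refine ⟨hne, h1, fun η hη => ?_, fun η hη hη1 => ?_⟩
  · rw [CL_image H HM hα hb hx hy hne]
    exact Finset.single_le_sum (f := fun η => CL v d χ α (some x) (some (η * y))) h1 hη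
  · rw [CL_image H HM hα hb hx hy hne, ← Finset.add_sum_erase M _ HM.one, one_mul]
    have hmem : η ∈ M.erase 1 := Finset.mem_erase.mpr ⟨hη1, hη⟩
    have := Finset.single_le_sum (f := fun η => CL v d χ α (some x) (some (η * y)))
      (fun i hi => h1 i (Finset.mem_of_mem_erase hi)) hmem
    linarith

/-- iterated monotonicity -/
lemma CL_iter (H : Sg d n χ) (HM : GM v M d) (hα : α ≠ 0) (hb : b = 0 ∨ 0 ≤ S v d χ α b)
    {P Q : Option K} (k : ℕ) : (F n α b)^[k] P ≠ (F n α b)^[k] Q →
    CL v d χ α P Q ≤ CL v d χ α ((F n α b)^[k] P) ((F n α b)^[k] Q) := by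
  induction k with
  | zero => intro _; exact le_rfl
  | succ k ih =>
    intro hne
    rw [Function.iterate_succ_apply', Function.iterate_succ_apply'] at hne ⊢
    have h1 : (F n α b)^[k] P ≠ (F n α b)^[k] Q := fun h => hne (by rw [h])
    exact (ih h1).trans (CL_mono H HM hα hb h1 hne)

/-- periodic pairs at a good place -/
lemma good_per (H : Sg d n χ) (HM : GM v M d) (hα : α ≠ 0) (hb : b = 0 ∨ 0 ≤ S v d χ α b)
    {x y : K} (hx : x ≠ 0) (hy : y ≠ 0) (hxy : x ≠ y) (hPx : Per (F n α b) (some x))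
    (hPy : Per (F n α b) (some y)) :
    ∃ k : ℤ, ∀ η ∈ M, η ≠ 1 → o v (x / y - η) = k := by
  have hN := H.N_pos
  have hPQ : (some x : Option K) ≠ some y := fun h => hxy (Option.some_injective _ h)
  have hne : ∀ k, (F n α b)^[k] (some x) ≠ (F n α b)^[k] (some y) :=
    fun k h => hPQ (hPx.inj_iter hPy k h)
  have hF : F n α b (some x) ≠ F n α b (some y) := hne 1
  obtain ⟨h1, h2, -, h3⟩ := CL_two H HM hα hb hx hy hF
  obtain ⟨k, hk, e1, e2⟩ := hPx.common hPy
  have h4 := CL_iter H HM hα hb (P := F n α b (some x)) (Q := F n α b (some y)) (k - 1) (by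
    rw [← Function.iterate_succ_apply, ← Function.iterate_succ_apply]
    exact hne _)
  rw [← Function.iterate_succ_apply, ← Function.iterate_succ_apply,
    show (k - 1).succ = k by omega, e1, e2] at h4
  -- hence the closeness of `x` and `η y` vanishes
  have h5 : ∀ η ∈ M, η ≠ 1 → S v d χ α (x - η * y) = mS v d χ α x + mS v d χ α y := by
    intro η hη hη1
    have h6 := h3 η hη hη1
    have h7 := h2 η hη
    have h8 : CL v d χ α (some x) (some (η * y)) = 0 := by omega
    simp only [CL, cl] at h8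
    rw [ms_unit (HM.ne η hη) (HM.unit η hη)] at h8
    simp only [S, mS]
    omega
  refine ⟨?_, ?_⟩
  · by_cases hM : ∃ η ∈ M, η ≠ 1
    · exact o v (x / y - hM.choose)
    · exact 0
  · intro η hη hη1
    have hM : ∃ η ∈ M, η ≠ 1 := ⟨η, hη, hη1⟩
    rw [dif_pos hM]
    obtain ⟨hm1, hm2⟩ := hM.choose_spec
    set η' := hM.choose
    have hid : ∀ η, x / y - η = (x - η * y) / y := by intro η; field_simp
    rw [hid, hid, o_div v (sub_ne_zero.mpr (h1 η hη)) hy, o_div v (sub_ne_zero.mpr (h1 η' hm1)) hy]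
    congr 1
    rw [← s_eq_iff (v := v) (A := (1 - 2 * χ) * o v α) hN]
    exact (h5 η hη hη1).trans (h5 η' hm1 hm2).symm

/-- merging chains at a good place -/
lemma good_merge (H : Sg d n χ) (HM : GM v M d) (hα : α ≠ 0) (hb : b = 0 ∨ 0 ≤ S v d χ α b)
    {u w ζ : K} {k : ℕ} (hu : u ≠ 0) (hw : w ≠ 0) (hζ : ζ ∈ M) (hζ1 : ζ ≠ 1)
    (e1 : (F n α b)^[k + 1] (some w) = some w) (e2 : (F n α b)^[k + 1] (some u) = some (ζ * w))
    (hne : u ^ d ≠ w ^ d) :
    ∃ k : ℤ, ∀ η ∈ M, η ≠ 1 → o v (u / w - η) = k := by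
  have hN := H.N_pos
  have hζw : ζ * w - w ≠ 0 := by
    rw [show ζ * w - w = (ζ - 1) * w by ring]
    exact mul_ne_zero (sub_ne_zero.mpr hζ1) hw
  have hζs : S v d χ α (ζ * w - w) = S v d χ α w := by
    rw [show ζ * w - w = (ζ - 1) * w by ring]
    exact s_unit (sub_ne_zero.mpr hζ1) (HM.diff ζ hζ 1 HM.one hζ1) hw
  have hF : F n α b (some u) ≠ F n α b (some w) := by
    rw [F_some hu, F_some hw]
    intro h
    have h1 := add_right_cancel (Option.some_injective _ h)
    exact hne ((zpow_eq_iff H).mp (mul_left_cancel₀ hα h1))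
  obtain ⟨h1, h2, h3, -⟩ := CL_two H HM hα hb hu hw hF
  have h4 := CL_iter H HM hα hb (P := F n α b (some u)) (Q := F n α b (some w)) k (by
    rw [← Function.iterate_succ_apply, ← Function.iterate_succ_apply, e1, e2]
    intro h
    exact hζw (sub_eq_zero.mpr (Option.some_injective _ h)))
  rw [← Function.iterate_succ_apply, ← Function.iterate_succ_apply, e1, e2] at h4
  have h5 : CL v d χ α (some (ζ * w)) (some w) = S v d χ α w - 2 * mS v d χ α w := by
    simp only [CL, cl]
    rw [ms_unit (HM.ne ζ hζ) (HM.unit ζ hζ)]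
    simp only [S] at hζs
    rw [hζs]; ring
  rw [h5] at h4
  have h6 : ∀ η ∈ M, S v d χ α (u - η * w) ≤ S v d χ α w + mS v d χ α u - mS v d χ α w := by
    intro η hη
    have h7 := (h3 η hη).trans h4
    simp only [CL, cl] at h7
    rw [ms_unit (HM.ne η hη) (HM.unit η hη)] at h7
    simp only [S, mS] at h7 ⊢
    linarith
  have hid : ∀ η, u / w - η = (u - η * w) / w := by intro η; field_simp
  have hηs : ∀ η ∈ M, S v d χ α (η * w) = S v d χ α w := fun η hη =>
    s_unit (HM.ne η hη) (HM.unit η hη) hw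
  -- the value of `S (u - η w)` is independent of `η`
  have h8 : ∀ η ∈ M, S v d χ α (u - η * w) = min (S v d χ α u) (S v d χ α w) := by
    intro η hη
    have hηw : η * w ≠ 0 := mul_ne_zero (HM.ne η hη) hw
    rcases lt_trichotomy (S v d χ α u) (S v d χ α w) with h | h | h
    · rw [min_eq_left h.le, sub_eq_add_neg]
      refine (s_add_lt hN hu (Or.inr ?_)).2
      rw [s_neg]
      exact h.trans_eq (hηs η hη).symm
    · rw [h, min_self]
      apply le_antisymm
      · have := h6 η hη
        have h9 : mS v d χ α u = mS v d χ α w := by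
          rw [mS, mS, ms_of_ne hu, ms_of_ne hw]
          simp only [S] at h
          rw [h]
        omega
      · have h9 := sub_ne_zero.mpr (h1 η hη)
        rw [sub_eq_add_neg] at h9 ⊢
        refine s_add_ge hN h9 (Or.inr h.ge) (Or.inr ?_)
        rw [s_neg]
        exact (hηs η hη).ge
    · rw [min_eq_right h.le]
      have e : u - η * w = -(η * w + -u) := by ring
      have h11 : s v (d - 1 + 2 * χ) ((1 - 2 * χ) * o v α) (η * w) =
        s v (d - 1 + 2 * χ) ((1 - 2 * χ) * o v α) w := hηs η hη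
      have h12 : s v (d - 1 + 2 * χ) ((1 - 2 * χ) * o v α) w <
        s v (d - 1 + 2 * χ) ((1 - 2 * χ) * o v α) u := h
      have h10 := (s_add_lt (v := v) (A := (1 - 2 * χ) * o v α) hN hηw (y := -u)
        (Or.inr (by rw [s_neg, h11]; exact h12))).2
      show s v (d - 1 + 2 * χ) ((1 - 2 * χ) * o v α) (u - η * w) = _
      rw [e, s_neg, h10, h11]
  refine ⟨?_, ?_⟩
  · by_cases hM : ∃ η ∈ M, η ≠ 1
    · exact o v (u / w - hM.choose)
    · exact 0
  · intro η hη hη1
    have hM : ∃ η ∈ M, η ≠ 1 := ⟨η, hη, hη1⟩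
    rw [dif_pos hM]
    obtain ⟨hm1, hm2⟩ := hM.choose_spec
    set η' := hM.choose
    rw [hid, hid, o_div v (sub_ne_zero.mpr (h1 η hη)) hw, o_div v (sub_ne_zero.mpr (h1 η' hm1)) hw]
    congr 1
    rw [← s_eq_iff (v := v) (A := (1 - 2 * χ) * o v α) hN]
    exact (h8 η hη).trans (h8 η' hm1).symm

end Pool.Agent.Helper80.LA
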