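import Mathlib
import Pool.Agent.Helper80.LA.Good

set_option autoImplicit false

open IsDedekindDomain NumberField Polynomial

namespace Pool.Agent.Helper80.LA

open Pool.Agent.Helper80.UC Pool.Agent.Helper80.QP Pool.Agent.Helper80.SG

variable {K : Type} [Field K] [NumberField K] {v : Pl K}
variable {d : ℕ} {n χ : ℤ} {α b : K} {M : Finset K}

/-- points of the Julia height -/
def J (v : Pl K) (d : ℕ) (n χ : ℤ) (α b : K) (P : Option K) : Prop :=
  ∃ y, P = some y ∧ y ≠ 0 ∧ n * S v d χ α y = S v d χ α b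

/-- all the iterates have the Julia height -/
def Jinf (v : Pl K) (d : ℕ) (n χ : ℤ) (α b : K) (P : Option K) : Prop :=
  ∀ i : ℕ, J v d n χ α b ((F n α b)^[i] P)

lemma Jinf.zero {P : Option K} (h : Jinf v d n χ α b P) : J v d n χ α b P := h 0

lemma Jinf.map {P : Option K} (h : Jinf v d n χ α b P) : Jinf v d n χ α b (F n α b P) := by
  intro i
  rw [← Function.iterate_succ_apply]
  exact h (i + 1)

lemma J_some {x : K} : J v d n χ α b (some x) ↔ x ≠ 0 ∧ n * S v d χ α x = S v d χ α b := by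
  constructor
  · rintro ⟨y, hy, h⟩
    have := Option.some_injective _ hy
    subst this
    exact h
  · rintro h
    exact ⟨x, rfl, h⟩

/-- the effect of the map on close points of the same height -/
lemma step (H : Sg d n χ) (HM : GM v M d) (hα : α ≠ 0) {x y η0 : K} (hx : x ≠ 0) (hy : y ≠ 0)
    (hxy : S v d χ α x = S v d χ α y) (hη0 : η0 ∈ M) (hne : x ≠ η0 * y)
    (hlt : S v d χ α y < S v d χ α (x - η0 * y)) :
    α * x ^ n + b ≠ α * y ^ n + b ∧ S v d χ α ((α * x ^ n + b) - (α * y ^ n + b)) =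
      S v d χ α (x - η0 * y) + (d - 1 - 2 * χ * d) * S v d χ α y := by
  classical
  have hN := H.N_pos
  have hoth : ∀ η ∈ M, η ≠ η0 → x - η * y ≠ 0 ∧ S v d χ α (x - η * y) = S v d χ α y := by
    intro η hη hηη
    have e : x - η * y = (η0 - η) * y + (x - η0 * y) := by ring
    have hd0 : (η0 - η) * y ≠ 0 := mul_ne_zero (sub_ne_zero.mpr hηη.symm) hy
    have hs : S v d χ α ((η0 - η) * y) = S v d χ α y :=
      s_unit (sub_ne_zero.mpr hηη.symm) (HM.diff η0 hη0 η hη hηη.symm) hy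
    rw [e]
    have h1 := s_add_lt (v := v) (A := (1 - 2 * χ) * o v α) hN hd0 (y := x - η0 * y)
      (Or.inr (by
        have h2 : s v (d - 1 + 2 * χ) ((1 - 2 * χ) * o v α) ((η0 - η) * y) =
          s v (d - 1 + 2 * χ) ((1 - 2 * χ) * o v α) y := hs
        rw [h2]
        exact hlt))
    exact ⟨h1.1, h1.2.trans hs⟩
  have hall : ∀ η ∈ M, x ≠ η * y := by
    intro η hη
    by_cases h : η = η0
    · rw [h]; exact hne
    · exact sub_ne_zero.mp (hoth η hη h).1
  obtain ⟨h1, h2⟩ := S_diff (v := v) (b := b) H HM.toGM0 hα hx hy hall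
  refine ⟨h1, ?_⟩
  rw [h2, ← Finset.add_sum_erase M _ hη0]
  have h3 : ∑ η ∈ M.erase η0, S v d χ α (x - η * y) = (d - 1) * S v d χ α y := by
    rw [Finset.sum_congr rfl (fun η hη => (hoth η (Finset.mem_of_mem_erase hη)
      (Finset.mem_erase.mp hη).1).2), Finset.sum_const, Finset.card_erase_of_mem hη0, HM.card,
      nsmul_eq_mul]
    have := H.hd
    push_cast [show 1 ≤ d by omega]
    ring
  rw [h3, hxy]; ring

/-- sign of the Julia height -/
lemma J_sign (H : Sg d n χ) (hb : S v d χ α b < 0) {y : K}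
    (h : n * S v d χ α y = S v d χ α b) :
    (χ = 0 ∧ S v d χ α y < 0) ∨ (χ = 1 ∧ 0 < S v d χ α y) := by
  have hd' : (2 : ℤ) ≤ d := by exact_mod_cast H.hd
  rcases H.h with ⟨h1, h2⟩ | ⟨h1, h2⟩
  · left
    refine ⟨h1, ?_⟩
    rw [← h, h2] at hb
    by_contra hcon
    push Not at hcon
    have := mul_nonneg (show (0 : ℤ) ≤ d by omega) hcon
    omega
  · right
    refine ⟨h1, ?_⟩
    rw [← h, h2] at hb
    by_contra hcon
    push Not at hcon
    nlinarith

/-- the basic divisibility -/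
lemma bad_pair (H : Sg d n χ) (HM : GM v M d) (hα : α ≠ 0) (hb : S v d χ α b < 0) :
    ∀ (k : ℕ) (x y : K), Jinf v d n χ α b (some x) → Jinf v d n χ α b (some y) → x ≠ y →
      (S v d χ α (x - y) - S v d χ α y).toNat = k →
      (d - 1 + 2 * χ) * S v d χ α y ∣ S v d χ α (x - y) - S v d χ α y := by
  intro k
  induction k using Nat.strong_induction_on with
  | _ k ih =>
    intro x y hx hy hxy hk
    have hN := H.N_pos
    have hn := H.n_ne
    have hd' : (2 : ℤ) ≤ d := by exact_mod_cast H.hd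
    obtain ⟨hx0, hxJ⟩ := J_some.mp hx.zero
    obtain ⟨hy0, hyJ⟩ := J_some.mp hy.zero
    have hsxy : S v d χ α x = S v d χ α y := mul_left_cancel₀ hn (hxJ.trans hyJ.symm)
    have hsub := sub_ne_zero.mpr hxy
    have hge : S v d χ α y ≤ S v d χ α (x - y) := by
      rw [sub_eq_add_neg] at hsub ⊢
      refine s_add_ge hN hsub (Or.inr hsxy.ge) (Or.inr ?_)
      rw [s_neg]
    rcases hge.eq_or_lt with heq | hlt
    · rw [← heq, sub_self]; exact dvd_zero _
    · obtain ⟨hfne, hfs⟩ := step (b := b) H HM hα hx0 hy0 hsxy HM.one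
        (by rw [one_mul]; exact hxy) (by rw [one_mul]; exact hlt)
      rw [one_mul] at hfs
      have hJx := hx.map
      have hJy := hy.map
      rw [F_some hx0] at hJx
      rw [F_some hy0] at hJy
      have hfy : S v d χ α (α * y ^ n + b) = S v d χ α y :=
        mul_left_cancel₀ hn ((J_some.mp hJy.zero).2.trans hyJ.symm)
      have hE : S v d χ α ((α * x ^ n + b) - (α * y ^ n + b)) - S v d χ α (α * y ^ n + b) =
          (S v d χ α (x - y) - S v d χ α y) + (d - 1 - 2 * χ * d) * S v d χ α y := by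
        rw [hfs, hfy]; ring
      have hdec : (d - 1 - 2 * χ * d) * S v d χ α y < 0 := by
        rcases J_sign H hb hyJ with ⟨h1, h2⟩ | ⟨h1, h2⟩
        · rw [h1] at h2 ⊢; nlinarith
        · rw [h1] at h2 ⊢; nlinarith
      have hlt2 : (S v d χ α ((α * x ^ n + b) - (α * y ^ n + b)) -
          S v d χ α (α * y ^ n + b)).toNat < k := by
        rw [hE, ← hk]
        omega
      have h3 := ih _ hlt2 _ _ hJx hJy hfne rfl
      rw [hE, hfy] at h3
      have h4 : (d - 1 + 2 * χ) * S v d χ α y ∣ (d - 1 - 2 * χ * d) * S v d χ α y := by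
        rcases H.h with ⟨h1, -⟩ | ⟨h1, -⟩
        · rw [h1]; exact ⟨1, by ring⟩
        · rw [h1]; exact ⟨-1, by ring⟩
      exact (Int.dvd_iff_dvd_of_dvd_add h3).mpr h4

/-- the divisibility for `x - η y` -/
lemma bad_eta (H : Sg d n χ) (HM : GM v M d) (hα : α ≠ 0) (hb : S v d χ α b < 0)
    {x y : K} (hx : Jinf v d n χ α b (some x)) (hy : Jinf v d n χ α b (some y)) {η : K}
    (hη : η ∈ M) (hne : x ≠ η * y) :
    (d - 1 + 2 * χ) * S v d χ α y ∣ S v d χ α (x - η * y) - S v d χ α y := by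
  have hN := H.N_pos
  have hn := H.n_ne
  obtain ⟨hx0, hxJ⟩ := J_some.mp hx.zero
  obtain ⟨hy0, hyJ⟩ := J_some.mp hy.zero
  have hsxy : S v d χ α x = S v d χ α y := mul_left_cancel₀ hn (hxJ.trans hyJ.symm)
  have hηy : S v d χ α (η * y) = S v d χ α y := s_unit (HM.ne η hη) (HM.unit η hη) hy0
  have hsub := sub_ne_zero.mpr hne
  have hge : S v d χ α y ≤ S v d χ α (x - η * y) := by
    rw [sub_eq_add_neg] at hsub ⊢
    refine s_add_ge hN hsub (Or.inr hsxy.ge) (Or.inr ?_)
    rw [s_neg]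
    exact hηy.ge
  rcases hge.eq_or_lt with heq | hlt
  · rw [← heq, sub_self]; exact dvd_zero _
  · obtain ⟨hfne, hfs⟩ := step (b := b) H HM hα hx0 hy0 hsxy hη hne hlt
    have hJx := hx.map
    have hJy := hy.map
    rw [F_some hx0] at hJx
    rw [F_some hy0] at hJy
    have hfy : S v d χ α (α * y ^ n + b) = S v d χ α y :=
      mul_left_cancel₀ hn ((J_some.mp hJy.zero).2.trans hyJ.symm)
    have h3 := bad_pair H HM hα hb _ _ _ hJx hJy hfne rfl
    have hE : S v d χ α ((α * x ^ n + b) - (α * y ^ n + b)) - S v d χ α (α * y ^ n + b) =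
        (S v d χ α (x - η * y) - S v d χ α y) + (d - 1 - 2 * χ * d) * S v d χ α y := by
      rw [hfs, hfy]; ring
    rw [hE, hfy] at h3
    have h4 : (d - 1 + 2 * χ) * S v d χ α y ∣ (d - 1 - 2 * χ * d) * S v d χ α y := by
      rcases H.h with ⟨h1, -⟩ | ⟨h1, -⟩
      · rw [h1]; exact ⟨1, by ring⟩
      · rw [h1]; exact ⟨-1, by ring⟩
    exact (Int.dvd_iff_dvd_of_dvd_add h3).mpr h4

/-- conclusion for Julia pairs -/
lemma JJ_concl (H : Sg d n χ) (HM : GM v M d) (hα : α ≠ 0) (hb : S v d χ α b < 0) {m : ℕ}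
    (hmn : (m : ℤ) ∣ n - 1) (hmα : (m : ℤ) ∣ o v α)
    {x y : K} (hx : Jinf v d n χ α b (some x)) (hy : Jinf v d n χ α b (some y)) {η : K}
    (hη : η ∈ M) (hne : x ≠ η * y) : (m : ℤ) ∣ o v (x / y - η) := by
  have hN := H.N_pos
  obtain ⟨hy0, hyJ⟩ := J_some.mp hy.zero
  have h1 := bad_eta H HM hα hb hx hy hη hne
  have hid : x / y - η = (x - η * y) / y := by field_simp
  have hsub := sub_ne_zero.mpr hne
  rw [hid, o_div v hsub hy0]
  have h2 : S v d χ α (x - η * y) - S v d χ α y =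
      (d - 1 + 2 * χ) * (o v (x - η * y) - o v y) := by
    simp only [S, s]; ring
  rw [h2] at h1
  have h3 : S v d χ α y ∣ o v (x - η * y) - o v y := (mul_dvd_mul_iff_left hN.ne').mp h1
  refine dvd_trans ?_ h3
  have h4 : (m : ℤ) ∣ d - 1 + 2 * χ := by
    rcases H.h with ⟨e1, e2⟩ | ⟨e1, e2⟩
    · rw [e1]; rw [e2] at hmn; simpa using hmn
    · rw [e1]; rw [e2] at hmn
      have : (d - 1 + 2 * 1 : ℤ) = -(-d - 1) := by ring
      rw [this]
      exact (dvd_neg).mpr hmn
  simp only [S, s]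
  exact dvd_add (Dvd.dvd.mul_right h4 _) (Dvd.dvd.mul_left hmα _)

/-- points of different heights -/
lemma indep (H : Sg d n χ) (HM : GM v M d) {x y : K} (hx : x ≠ 0) (hy : y ≠ 0)
    (hne : S v d χ α x ≠ S v d χ α y) : ∃ k : ℤ, ∀ η ∈ M, o v (x / y - η) = k := by
  have hN := H.N_pos
  have hid : ∀ η, x / y - η = (x - η * y) / y := by intro η; field_simp
  rcases lt_or_gt_of_ne hne with h | h
  · refine ⟨o v x - o v y, fun η hη => ?_⟩
    have hηy : η * y ≠ 0 := mul_ne_zero (HM.ne η hη) hy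
    have hoη : o v (η * y) = o v y := by rw [o_mul v (HM.ne η hη) hy, HM.unit η hη, zero_add]
    have h1 := o_add_lt' v hx (y := -(η * y)) (Or.inr (by
      rw [o_neg, hoη]; exact (s_lt_iff hN).mp h))
    rw [← sub_eq_add_neg] at h1
    rw [hid, o_div v h1.1 hy, h1.2]
  · refine ⟨0, fun η hη => ?_⟩
    have hηy : η * y ≠ 0 := mul_ne_zero (HM.ne η hη) hy
    have hoη : o v (η * y) = o v y := by rw [o_mul v (HM.ne η hη) hy, HM.unit η hη, zero_add]
    have h1 := o_add_lt' v (neg_ne_zero.mpr hηy) (y := x) (Or.inr (by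
      rw [o_neg, hoη]; exact (s_lt_iff hN).mp h))
    have e : x - η * y = -(η * y) + x := by ring
    rw [hid, e, o_div v h1.1 hy, h1.2, o_neg, hoη, sub_self]

end Pool.Agent.Helper80.LA
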