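import Mathlib
import Pool.Agent.Helper80.LA.Bad

set_option autoImplicit false

open IsDedekindDomain NumberField Polynomial

namespace Pool.Agent.Helper80.LA

open Pool.Agent.Helper80.UC Pool.Agent.Helper80.QP Pool.Agent.Helper80.SG

variable {K : Type} [Field K] [NumberField K] {v : Pl K}
variable {d : ℕ} {n χ : ℤ} {α b : K} {M : Finset K}

/-! ### positive exponents -/

lemma esc_pos (H : Sg d n χ) (hn : 0 < n) (hα : α ≠ 0) (hb : S v d χ α b < 0) {y : K}
    (hy : y ≠ 0) (h : n * S v d χ α y < S v d χ α b) : ¬ Pre (F n α b) (some y) := by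
  have hN := H.N_pos
  have hd' : (2 : ℤ) ≤ d := by exact_mod_cast H.hd
  have hn2 : 2 ≤ n := by rcases H.h with ⟨h1, h2⟩ | ⟨h1, h2⟩ <;> omega
  refine not_pre (f := F n α b) (fun P => ∃ y, P = some y ∧ y ≠ 0 ∧ n * S v d χ α y < S v d χ α b)
    (fun P => match P with
      | none => 0
      | some y => S v d χ α y) ?_ ⟨y, rfl, hy, h⟩
  rintro _ ⟨y, rfl, hy, h⟩
  have hneg : S v d χ α y < 0 := by
    by_contra hcon
    push Not at hcon
    have := mul_nonneg hn.le hcon
    omega
  have hX : S v d χ α (α * y ^ n) = n * S v d χ α y := S_pow H hα hy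
  have hX0 : α * y ^ n ≠ 0 := mul_ne_zero hα (zpow_ne_zero _ hy)
  have h1 := s_add_lt (v := v) (A := (1 - 2 * χ) * o v α) hN hX0 (y := b) (Or.inr (by
    exact hX.trans_lt h))
  have h2 : S v d χ α (α * y ^ n + b) = n * S v d χ α y := h1.2.trans hX
  have h3 : n * S v d χ α y < S v d χ α y := by nlinarith
  rw [F_some hy]
  refine ⟨⟨_, rfl, h1.1, ?_⟩, ?_⟩
  · rw [h2]
    have : n * (n * S v d χ α y) < n * S v d χ α y := mul_lt_mul_of_pos_left h3 hn
    omega
  · show S v d χ α (α * y ^ n + b) < S v d χ α y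
    rw [h2]; exact h3

lemma pre_J_pos (H : Sg d n χ) (hn : 0 < n) (hα : α ≠ 0) (hb0 : b ≠ 0) (hb : S v d χ α b < 0)
    {x : K} (hx : Pre (F n α b) (some x)) : J v d n χ α b (some x) := by
  have hN := H.N_pos
  have hd' : (2 : ℤ) ≤ d := by exact_mod_cast H.hd
  have hn2 : 2 ≤ n := by rcases H.h with ⟨h1, h2⟩ | ⟨h1, h2⟩ <;> omega
  by_cases hx0 : x = 0
  · exfalso
    subst hx0
    have h1 := hx.map
    rw [F_zero_pos hn] at h1
    exact esc_pos H hn hα hb hb0 (by nlinarith) h1
  rcases lt_trichotomy (n * S v d χ α x) (S v d χ α b) with h | h | h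
  · exact absurd hx (esc_pos H hn hα hb hx0 h)
  · exact J_some.mpr ⟨hx0, h⟩
  · exfalso
    have hX : S v d χ α (α * x ^ n) = n * S v d χ α x := S_pow H hα hx0
    have h1 := s_add_lt (v := v) (A := (1 - 2 * χ) * o v α) hN hb0 (y := α * x ^ n) (Or.inr (by
      exact h.trans_eq hX.symm))
    rw [add_comm] at h1
    have h2 : S v d χ α (α * x ^ n + b) = S v d χ α b := h1.2
    have h3 := hx.map
    rw [F_some hx0] at h3
    refine esc_pos H hn hα hb h1.1 ?_ h3
    rw [h2]
    nlinarith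

lemma pre_Jinf_pos (H : Sg d n χ) (hn : 0 < n) (hα : α ≠ 0) (hb0 : b ≠ 0)
    (hb : S v d χ α b < 0) {x : K} (hx : Pre (F n α b) (some x)) :
    Jinf v d n χ α b (some x) := by
  intro i
  have h1 : ∃ y, (F n α b)^[i] (some x) = some y := by
    induction i with
    | zero => exact ⟨x, rfl⟩
    | succ i ih =>
      obtain ⟨y, hy⟩ := ih
      rw [Function.iterate_succ_apply', hy]
      by_cases hy0 : y = 0
      · subst hy0
        exact ⟨b, F_zero_pos hn⟩
      · exact ⟨_, F_some hy0⟩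
  obtain ⟨y, hy⟩ := h1
  have h2 := hx.iter i
  rw [hy] at h2 ⊢
  exact pre_J_pos H hn hα hb0 hb h2

/-! ### negative exponents -/

/-- points of the attracting basin -/
def Bm (v : Pl K) (d : ℕ) (χ : ℤ) (α : K) (P : Option K) : Prop :=
  ∃ y, P = some y ∧ y ≠ 0 ∧ S v d χ α y < 0

lemma Bm_step (H : Sg d n χ) (hn : ¬ 0 < n) (hα : α ≠ 0) (hb0 : b ≠ 0) (hb : S v d χ α b < 0)
    {P : Option K} (hP : Bm v d χ α P) :
    ∃ z, F n α b P = some z ∧ z ≠ 0 ∧ S v d χ α z = S v d χ α b ∧
      (z - b ≠ 0 ∧ 0 < S v d χ α (z - b)) := by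
  obtain ⟨y, rfl, hy, hneg⟩ := hP
  have hN := H.N_pos
  have hd' : (2 : ℤ) ≤ d := by exact_mod_cast H.hd
  have hX : S v d χ α (α * y ^ n) = n * S v d χ α y := S_pow H hα hy
  have hn' : n < 0 := by rcases H.h with ⟨h1, h2⟩ | ⟨h1, h2⟩ <;> omega
  have hpos : 0 < n * S v d χ α y := mul_pos_of_neg_of_neg hn' hneg
  have h1 := s_add_lt (v := v) (A := (1 - 2 * χ) * o v α) hN hb0 (y := α * y ^ n) (Or.inr (by
    have : S v d χ α b < S v d χ α (α * y ^ n) := by rw [hX]; omega
    exact this))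
  rw [add_comm] at h1
  refine ⟨_, F_some hy, h1.1, h1.2, ?_⟩
  rw [add_sub_cancel_right]
  exact ⟨mul_ne_zero hα (zpow_ne_zero _ hy), by rw [hX]; exact hpos⟩

lemma Bm_map (H : Sg d n χ) (hn : ¬ 0 < n) (hα : α ≠ 0) (hb0 : b ≠ 0) (hb : S v d χ α b < 0)
    {P : Option K} (hP : Bm v d χ α P) : Bm v d χ α (F n α b P) := by
  obtain ⟨z, h1, h2, h3, -⟩ := Bm_step H hn hα hb0 hb hP
  exact ⟨z, h1, h2, by rw [h3]; exact hb⟩

lemma Bm_iter (H : Sg d n χ) (hn : ¬ 0 < n) (hα : α ≠ 0) (hb0 : b ≠ 0) (hb : S v d χ α b < 0)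
    {P : Option K} (hP : Bm v d χ α P) (i : ℕ) : Bm v d χ α ((F n α b)^[i] P) := by
  induction i with
  | zero => exact hP
  | succ i ih => rw [Function.iterate_succ_apply']; exact Bm_map H hn hα hb0 hb ih

lemma Bm_not_J (H : Sg d n χ) (hn : ¬ 0 < n) (hb : S v d χ α b < 0)
    {P : Option K} (hP : Bm v d χ α P) : ¬ J v d n χ α b P := by
  obtain ⟨y, rfl, hy, hneg⟩ := hP
  intro h
  obtain ⟨-, h2⟩ := J_some.mp h
  have hd' : (2 : ℤ) ≤ d := by exact_mod_cast H.hd
  have hn' : n < 0 := by rcases H.h with ⟨h1, h2⟩ | ⟨h1, h2⟩ <;> omega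
  have hpos : 0 < n * S v d χ α y := mul_pos_of_neg_of_neg hn' hneg
  omega

lemma notJ_map (H : Sg d n χ) (hn : ¬ 0 < n) (hα : α ≠ 0) (hb0 : b ≠ 0) (hb : S v d χ α b < 0)
    {P : Option K} (hP : ¬ J v d n χ α b P) : F n α b P = none ∨ Bm v d χ α (F n α b P) := by
  have hN := H.N_pos
  cases P with
  | none => right; exact ⟨b, F_none_neg hn, hb0, hb⟩
  | some x =>
    by_cases hx : x = 0
    · left; subst hx; exact F_zero_neg hn
    · right
      rw [F_some hx]
      have hX : S v d χ α (α * x ^ n) = n * S v d χ α x := S_pow H hα hx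
      have hX0 : α * x ^ n ≠ 0 := mul_ne_zero hα (zpow_ne_zero _ hx)
      have hne : n * S v d χ α x ≠ S v d χ α b := fun h => hP (J_some.mpr ⟨hx, h⟩)
      rcases lt_or_gt_of_ne hne with h | h
      · have h1 := s_add_lt (v := v) (A := (1 - 2 * χ) * o v α) hN hX0 (y := b) (Or.inr (by
          exact hX.trans_lt h))
        refine ⟨_, rfl, h1.1, ?_⟩
        have h2 : S v d χ α (α * x ^ n + b) = n * S v d χ α x := h1.2.trans hX
        rw [h2]; omega
      · have h1 := s_add_lt (v := v) (A := (1 - 2 * χ) * o v α) hN hb0 (y := α * x ^ n)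
          (Or.inr (by exact h.trans_eq hX.symm))
        rw [add_comm] at h1
        refine ⟨_, rfl, h1.1, ?_⟩
        have h2 : S v d χ α (α * x ^ n + b) = S v d χ α b := h1.2
        rw [h2]; exact hb

lemma notJ_none : ¬ J v d n χ α b none := by
  rintro ⟨y, hy, -⟩
  exact absurd hy (by simp)

/-- `not J` is absorbing -/
lemma notJ_iter (H : Sg d n χ) (hn : ¬ 0 < n) (hα : α ≠ 0) (hb0 : b ≠ 0) (hb : S v d χ α b < 0)
    {P : Option K} (hP : ¬ J v d n χ α b P) (i : ℕ) : ¬ J v d n χ α b ((F n α b)^[i] P) := by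
  induction i with
  | zero => exact hP
  | succ i ih =>
    rw [Function.iterate_succ_apply']
    rcases notJ_map H hn hα hb0 hb ih with h | h
    · rw [h]; exact notJ_none
    · exact Bm_not_J H hn hb h

lemma notJ_Bm (H : Sg d n χ) (hn : ¬ 0 < n) (hα : α ≠ 0) (hb0 : b ≠ 0) (hb : S v d χ α b < 0)
    {P : Option K} (hP : ¬ J v d n χ α b P) (i : ℕ) : Bm v d χ α ((F n α b)^[i + 2] P) := by
  have h2 : Bm v d χ α ((F n α b)^[2] P) := by
    show Bm v d χ α (F n α b (F n α b P))
    rcases notJ_map H hn hα hb0 hb hP with h | h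
    · rw [h]
      rcases notJ_map H hn hα hb0 hb (P := none) notJ_none with h' | h'
      · rw [F_none_neg hn] at h'
        exact absurd h' (by simp)
      · exact h'
    · exact Bm_map H hn hα hb0 hb h
  rw [Function.iterate_add_apply]
  exact Bm_iter H hn hα hb0 hb h2 i

/-- dichotomy for periodic points -/
lemma per_dich (H : Sg d n χ) (hn : ¬ 0 < n) (hα : α ≠ 0) (hb0 : b ≠ 0) (hb : S v d χ α b < 0)
    {P : Option K} (hP : Per (F n α b) P) :
    Jinf v d n χ α b P ∨ ∀ i, Bm v d χ α ((F n α b)^[i] P) := by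
  by_cases h : Jinf v d n χ α b P
  · exact Or.inl h
  · right
    have h' : ∃ i, ¬ J v d n χ α b ((F n α b)^[i] P) := by
      by_contra hcon
      push Not at hcon
      exact h hcon
    obtain ⟨i, hi⟩ := h'
    obtain ⟨p, hp, hpP⟩ := hP
    -- some iterate of `P` in the basin is `P` itself
    have h1 : Bm v d χ α P := by
      have h2 := notJ_Bm H hn hα hb0 hb hi ((i + 2) * (p - 1))
      rw [← Function.iterate_add_apply] at h2
      have h3 : (i + 2) * (p - 1) + 2 + i = (i + 2) * p := by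
        obtain ⟨q, rfl⟩ : ∃ q, p = q + 1 := ⟨p - 1, by omega⟩
        rw [Nat.add_sub_cancel]; ring
      rw [h3, Nat.mul_comm, Function.iterate_mul] at h2
      rwa [Function.iterate_fixed hpP] at h2
    exact fun i => Bm_iter H hn hα hb0 hb h1 i

/-- two different periodic points are not both in the basin -/
lemma no_two_Bm (H : Sg d n χ) (HM : GM v M d) (hn : ¬ 0 < n) (hα : α ≠ 0) (hb0 : b ≠ 0)
    (hb : S v d χ α b < 0) {x y : K} (hxy : x ≠ y) (hx : Per (F n α b) (some x))
    (hy : Per (F n α b) (some y)) (hBx : ∀ i, Bm v d χ α ((F n α b)^[i] (some x)))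
    (hBy : ∀ i, Bm v d χ α ((F n α b)^[i] (some y))) : False := by
  classical
  have hN := H.N_pos
  have hd' : (2 : ℤ) ≤ d := by exact_mod_cast H.hd
  have hχ : χ = 1 := by rcases H.h with ⟨h1, h2⟩ | ⟨h1, h2⟩ <;> omega
  have hPQ : (some x : Option K) ≠ some y := fun h => hxy (Option.some_injective _ h)
  -- the heights along the orbits
  have hht : ∀ (z : K), Per (F n α b) (some z) →
      (∀ i, Bm v d χ α ((F n α b)^[i] (some z))) →
      ∀ (i : ℕ) (z' : K), (F n α b)^[i] (some z) = some z' → z' ≠ 0 ∧ S v d χ α z' = S v d χ α b := by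
    intro z hz hB i z' hi
    obtain ⟨p, hp, hpz⟩ := hz
    have h1 : (F n α b)^[i + (p - 1) + 1] (some z) = some z' := by
      rw [show i + (p - 1) + 1 = i + p by omega, Function.iterate_add_apply, hpz, hi]
    rw [Function.iterate_succ_apply'] at h1
    obtain ⟨w, e1, e2, e3, -⟩ := Bm_step H hn hα hb0 hb (hB (i + (p - 1)))
    rw [h1] at e1
    have := Option.some_injective _ e1
    subst this
    exact ⟨e2, e3⟩
  have key : ∀ k : ℕ, ∃ x' y' : K, (F n α b)^[k] (some x) = some x' ∧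
      (F n α b)^[k] (some y) = some y' ∧ S v d χ α (x - y) + k ≤ S v d χ α (x' - y') := by
    intro k
    induction k with
    | zero => exact ⟨x, y, rfl, rfl, by simp⟩
    | succ k ih =>
      obtain ⟨x', y', e1, e2, e3⟩ := ih
      obtain ⟨hx0, hxs⟩ := hht x hx hBx k x' e1
      obtain ⟨hy0, hys⟩ := hht y hy hBy k y' e2
      have hFne : F n α b (some x') ≠ F n α b (some y') := by
        rw [← e1, ← e2, ← Function.iterate_succ_apply' (F n α b),
          ← Function.iterate_succ_apply' (F n α b)]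
        exact fun h => hPQ (hx.inj_iter hy _ h)
      have hall : ∀ η ∈ M, x' ≠ η * y' := by
        apply pow_ne_of HM.toGM0
        intro h
        apply hFne
        rw [F_some hx0, F_some hy0, (zpow_eq_iff H).mpr h]
      obtain ⟨h1, h2⟩ := S_diff (v := v) (b := b) H HM.toGM0 hα hx0 hy0 hall
      refine ⟨α * x' ^ n + b, α * y' ^ n + b, ?_, ?_, ?_⟩
      · rw [Function.iterate_succ_apply', e1, F_some hx0]
      · rw [Function.iterate_succ_apply', e2, F_some hy0]
      · have h3 : ∀ η ∈ M, S v d χ α b ≤ S v d χ α (x' - η * y') := by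
          intro η hη
          have h4 := sub_ne_zero.mpr (hall η hη)
          rw [sub_eq_add_neg] at h4 ⊢
          refine s_add_ge hN h4 (Or.inr hxs.ge) (Or.inr ?_)
          rw [s_neg]
          have : S v d χ α (η * y') = S v d χ α y' := s_unit (HM.ne η hη) (HM.unit η hη) hy0
          exact (hys.symm.trans this.symm).le
        have h5 : S v d χ α (x' - y') + (d - 1) * S v d χ α b ≤
            ∑ η ∈ M, S v d χ α (x' - η * y') := by
          rw [← Finset.add_sum_erase M _ HM.one, one_mul]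
          refine add_le_add le_rfl ?_
          have h6 : ∑ η ∈ M.erase 1, S v d χ α b ≤ ∑ η ∈ M.erase 1, S v d χ α (x' - η * y') :=
            Finset.sum_le_sum fun η hη => h3 η (Finset.mem_of_mem_erase hη)
          rw [Finset.sum_const, Finset.card_erase_of_mem HM.one, HM.card, nsmul_eq_mul] at h6
          push_cast [show 1 ≤ d by omega] at h6
          exact h6
        rw [h2, hxs, hys]
        push_cast
        have h7 : χ * d * (S v d χ α b + S v d χ α b) = 2 * d * S v d χ α b := by rw [hχ]; ring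
        rw [h7]
        nlinarith
  obtain ⟨k, hk, e1, e2⟩ := hx.common hy
  obtain ⟨x', y', f1, f2, f3⟩ := key k
  rw [e1] at f1
  rw [e2] at f2
  have g1 := Option.some_injective _ f1
  have g2 := Option.some_injective _ f2
  subst g1 g2
  have : (0 : ℤ) < k := by exact_mod_cast hk
  linarith

end Pool.Agent.Helper80.LA
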