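import Mathlib
import Pool.Agent.Helper80.LA.Bad2

set_option autoImplicit false

open IsDedekindDomain NumberField Polynomial

namespace Pool.Agent.Helper80.LA

open Pool.Agent.Helper80.UC Pool.Agent.Helper80.QP Pool.Agent.Helper80.SG

section loc

variable {K : Type} [Field K] [NumberField K] {v : Pl K}
variable {d : ℕ} {n χ : ℤ} {α b : K} {M : Finset K}

/-- periodic pairs at a bad place -/
lemma bad_per (H : Sg d n χ) (HM : GM v M d) (hα : α ≠ 0) (hb0 : b ≠ 0) (hb : S v d χ α b < 0)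
    {m : ℕ} (hmn : (m : ℤ) ∣ n - 1) (hmα : (m : ℤ) ∣ o v α) {x y : K} (hx : x ≠ 0) (hy : y ≠ 0)
    (hxy : x ≠ y) (hPx : Per (F n α b) (some x)) (hPy : Per (F n α b) (some y))
    (hne : ∀ η ∈ M, x ≠ η * y) :
    ∃ k : ℤ, ∀ η ∈ M, η ≠ 1 → (m : ℤ) ∣ o v (x / y - η) - k := by
  have hJJ : Jinf v d n χ α b (some x) → Jinf v d n χ α b (some y) →
      ∃ k : ℤ, ∀ η ∈ M, η ≠ 1 → (m : ℤ) ∣ o v (x / y - η) - k := by
    intro h1 h2
    refine ⟨0, fun η hη _ => ?_⟩
    rw [sub_zero]
    exact JJ_concl H HM hα hb hmn hmα h1 h2 hη (hne η hη)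
  have hind : S v d χ α x ≠ S v d χ α y →
      ∃ k : ℤ, ∀ η ∈ M, η ≠ 1 → (m : ℤ) ∣ o v (x / y - η) - k := by
    intro h
    obtain ⟨k, hk⟩ := indep H HM hx hy h
    exact ⟨k, fun η hη _ => by rw [hk η hη, sub_self]; exact dvd_zero _⟩
  by_cases hn : 0 < n
  · exact hJJ (pre_Jinf_pos H hn hα hb0 hb hPx.pre) (pre_Jinf_pos H hn hα hb0 hb hPy.pre)
  · rcases per_dich H hn hα hb0 hb hPx with h1 | h1
    · rcases per_dich H hn hα hb0 hb hPy with h2 | h2
      · exact hJJ h1 h2
      · apply hind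
        intro h
        obtain ⟨y', e1, -, e2⟩ := h2 0
        have := Option.some_injective _ e1
        subst this
        rcases J_sign H hb (J_some.mp h1.zero).2 with ⟨g1, g2⟩ | ⟨g1, g2⟩
        · exact hn (H.pos_iff.mpr g1)
        · omega
    · rcases per_dich H hn hα hb0 hb hPy with h2 | h2
      · apply hind
        intro h
        obtain ⟨y', e1, -, e2⟩ := h1 0
        have := Option.some_injective _ e1
        subst this
        rcases J_sign H hb (J_some.mp h2.zero).2 with ⟨g1, g2⟩ | ⟨g1, g2⟩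
        · exact hn (H.pos_iff.mpr g1)
        · omega
      · exact absurd (no_two_Bm H HM hn hα hb0 hb hxy hPx hPy h1 h2) id

/-- the images of `ζ w` and `w` agree -/
lemma F_zeta (H : Sg d n χ) {w z : K} (hw : w ≠ 0) (hz : z ≠ 0) (h : z ^ d = w ^ d) :
    F n α b (some z) = F n α b (some w) := by
  rw [F_some hz, F_some hw, (zpow_eq_iff H).mpr h]

/-- merging chains at a bad place -/
lemma bad_merge (H : Sg d n χ) (HM : GM v M d) (hα : α ≠ 0) (hb0 : b ≠ 0)
    (hb : S v d χ α b < 0)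
    {m : ℕ} (hmn : (m : ℤ) ∣ n - 1) (hmα : (m : ℤ) ∣ o v α) {u w ζ : K} {k : ℕ} (hu : u ≠ 0)
    (hw : w ≠ 0) (hζ : ζ ∈ M) (hζ1 : ζ ≠ 1) (hζd : ζ ^ d = 1)
    (e1 : (F n α b)^[k + 1] (some w) = some w) (e2 : (F n α b)^[k + 1] (some u) = some (ζ * w))
    (hne : ∀ η ∈ M, u ≠ η * w) :
    ∃ k : ℤ, ∀ η ∈ M, η ≠ 1 → (m : ℤ) ∣ o v (u / w - η) - k := by
  have hN := H.N_pos
  have hJJ : Jinf v d n χ α b (some u) → Jinf v d n χ α b (some w) →
      ∃ k : ℤ, ∀ η ∈ M, η ≠ 1 → (m : ℤ) ∣ o v (u / w - η) - k := by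
    intro h1 h2
    refine ⟨0, fun η hη _ => ?_⟩
    rw [sub_zero]
    exact JJ_concl H HM hα hb hmn hmα h1 h2 hη (hne η hη)
  have hind : S v d χ α u ≠ S v d χ α w →
      ∃ k : ℤ, ∀ η ∈ M, η ≠ 1 → (m : ℤ) ∣ o v (u / w - η) - k := by
    intro h
    obtain ⟨k, hk⟩ := indep H HM hu hw h
    exact ⟨k, fun η hη _ => by rw [hk η hη, sub_self]; exact dvd_zero _⟩
  have hζ0 := HM.ne ζ hζ
  have hζw : ζ * w ≠ 0 := mul_ne_zero hζ0 hw
  have hFζ : F n α b (some (ζ * w)) = F n α b (some w) :=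
    F_zeta H hw hζw (by rw [mul_pow, hζd, one_mul])
  have hPw : Per (F n α b) (some w) := ⟨k + 1, by omega, e1⟩
  have hu2 : (F n α b)^[k + 2] (some u) = F n α b (some w) := by
    rw [Function.iterate_succ_apply', e2, hFζ]
  by_cases hn : 0 < n
  · have hPu : Pre (F n α b) (some u) := by
      refine ⟨k + 2, (k + 1) + (k + 2), by omega, ?_⟩
      rw [Function.iterate_add_apply _ (k + 1) (k + 2), hu2, ← Function.iterate_succ_apply,
        Function.iterate_succ_apply', e1]
    exact hJJ (pre_Jinf_pos H hn hα hb0 hb hPu) (pre_Jinf_pos H hn hα hb0 hb hPw.pre)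
  · have hsζ : S v d χ α (ζ * w) = S v d χ α w := s_unit hζ0 (HM.unit ζ hζ) hw
    rcases per_dich H hn hα hb0 hb hPw with h1 | h1
    · refine hJJ (fun i => ?_) h1
      rcases le_or_gt i (k + 1) with hi | hi
      · by_contra hcon
        have h2 := notJ_iter H hn hα hb0 hb hcon (k + 1 - i)
        rw [← Function.iterate_add_apply, Nat.sub_add_cancel hi, e2] at h2
        apply h2
        refine J_some.mpr ⟨hζw, ?_⟩
        rw [hsζ]
        exact (J_some.mp h1.zero).2
      · have h2 : (F n α b)^[i] (some u) = (F n α b)^[i - (k + 2) + 1] (some w) := by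
          rw [Function.iterate_succ_apply, ← hu2, ← Function.iterate_add_apply,
            Nat.sub_add_cancel (by omega)]
        rw [h2]
        exact h1 _
    · apply hind
      -- `w` is attracting: `F^k u` has the Julia height
      obtain ⟨w', g1, -, g3, g4, g5⟩ := Bm_step H hn hα hb0 hb (h1 k)
      rw [← Function.iterate_succ_apply' (F n α b), e1] at g1
      have := Option.some_injective _ g1
      subst this
      have h2 : ζ * w - b = (ζ - 1) * w + (w - b) := by ring
      have h3 : (ζ - 1) * w ≠ 0 := mul_ne_zero (sub_ne_zero.mpr hζ1) hw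
      have h4 : S v d χ α ((ζ - 1) * w) = S v d χ α w :=
        s_unit (sub_ne_zero.mpr hζ1) (HM.diff ζ hζ 1 HM.one hζ1) hw
      have h5 := s_add_lt (v := v) (A := (1 - 2 * χ) * o v α) hN h3 (y := w - b) (Or.inr (by
        have : S v d χ α ((ζ - 1) * w) < S v d χ α (w - b) := by rw [h4]; omega
        exact this))
      rw [← h2] at h5
      have h6 : S v d χ α (ζ * w - b) = S v d χ α b := h5.2.trans (h4.trans g3)
      have hJk : J v d n χ α b ((F n α b)^[k] (some u)) := by
        rw [Function.iterate_succ_apply'] at e2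
        cases hU : (F n α b)^[k] (some u) with
        | none =>
          exfalso
          rw [hU, F_none_neg hn] at e2
          have := Option.some_injective _ e2
          exact h5.1 (by rw [← this, sub_self])
        | some x =>
          rw [hU] at e2
          by_cases hx : x = 0
          · subst hx
            rw [F_zero_neg hn] at e2
            exact absurd e2 (by simp)
          · rw [F_some hx] at e2
            have h7 := Option.some_injective _ e2
            have h8 : ζ * w - b = α * x ^ n := by rw [← h7]; ring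
            refine J_some.mpr ⟨hx, ?_⟩
            rw [← S_pow H hα hx, ← h8, h6]
      have hJu : J v d n χ α b (some u) := by
        by_contra hcon
        exact notJ_iter H hn hα hb0 hb hcon k hJk
      rcases J_sign H hb (J_some.mp hJu).2 with ⟨f1, f2⟩ | ⟨f1, f2⟩
      · exact absurd (H.pos_iff.mpr f1) hn
      · omega

end loc

/-- **Finiteness of the ratios over a field containing the roots of unity.** -/
theorem ratioL {K : Type} [Field K] [NumberField K] {d m : ℕ} {n χ : ℤ} {M : Finset K}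
    {S1 : Set (Pl K)} (H : Sg d n χ) (hdm : Adm d m) (hmn : (m : ℤ) ∣ n - 1) (H0 : GM0 M d)
    (hM1 : ∀ ζ ∈ M, ζ ^ d = 1) (hS : S1.Finite) (HM : ∀ v ∉ S1, GM v M d) :
    ∃ R : Set K, R.Finite ∧ ∀ α b : K, α ≠ 0 → (∀ v ∉ S1, (m : ℤ) ∣ o v α) →
      (∀ x y : K, x ≠ 0 → y ≠ 0 → x ≠ y → Per (F n α b) (some x) →
        Per (F n α b) (some y) → x / y ∈ R) ∧
      (∀ (u w ζ : K) (k : ℕ), u ≠ 0 → w ≠ 0 → ζ ∈ M → ζ ≠ 1 →
        (F n α b)^[k + 1] (some w) = some w →
        (F n α b)^[k + 1] (some u) = some (ζ * w) → u ^ d ≠ w ^ d → u / w ∈ R) := by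
  refine ⟨_, abs_fin' hdm H0 hS, fun α b hα hmα' => ⟨?_, ?_⟩⟩
  · intro x y hx hy hxy hPx hPy
    have hne : ∀ η ∈ M, x ≠ η * y := by
      apply pow_ne_of H0
      intro h
      apply hxy
      have h1 := F_zeta (α := α) (b := b) H hy hx h
      exact Option.some_injective _ (hPx.inj hPy h1)
    refine ⟨fun η hη _ h0 => hne η hη (by rw [← h0, div_mul_cancel₀ _ hy]), fun v hv => ?_⟩
    by_cases hb : b = 0 ∨ 0 ≤ S v d χ α b
    · obtain ⟨k, hk⟩ := good_per H (HM v hv) hα hb hx hy hxy hPx hPy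
      exact ⟨k, fun η hη h1 => by rw [hk η hη h1, sub_self]; exact dvd_zero _⟩
    · push Not at hb
      exact bad_per H (HM v hv) hα hb.1 hb.2 hmn (hmα' v hv) hx hy hxy hPx hPy hne
  · intro u w ζ k hu hw hζ hζ1 e1 e2 hud
    have hne : ∀ η ∈ M, u ≠ η * w := pow_ne_of H0 hud
    refine ⟨fun η hη _ h0 => hne η hη (by rw [← h0, div_mul_cancel₀ _ hw]), fun v hv => ?_⟩
    by_cases hb : b = 0 ∨ 0 ≤ S v d χ α b
    · obtain ⟨k, hk⟩ := good_merge H (HM v hv) hα hb hu hw hζ hζ1 e1 e2 hud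
      exact ⟨k, fun η hη h1 => by rw [hk η hη h1, sub_self]; exact dvd_zero _⟩
    · push Not at hb
      exact bad_merge H (HM v hv) hα hb.1 hb.2 hmn (hmα' v hv) hu hw hζ hζ1 (hM1 ζ hζ) e1 e2 hne

lemma F_map {K L : Type} [Field K] [Field L] (φ : K →+* L) (n : ℤ) (α b : K) (P : Option K) :
    Option.map φ (F n α b P) = F n (φ α) (φ b) (Option.map φ P) := by
  cases P with
  | none =>
    by_cases hn : 0 < n
    · rw [F_none_pos hn, Option.map_none, F_none_pos hn]
    · rw [F_none_neg hn, Option.map_none, F_none_neg hn, Option.map_some]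
  | some x =>
    by_cases hx : x = 0
    · subst hx
      by_cases hn : 0 < n
      · rw [F_zero_pos hn, Option.map_some, Option.map_some, map_zero, F_zero_pos hn]
      · rw [F_zero_neg hn, Option.map_none, Option.map_some, map_zero, F_zero_neg hn]
    · rw [F_some hx, Option.map_some, Option.map_some, F_some ((_root_.map_ne_zero φ).mpr hx),
        map_add, map_mul, map_zpow₀]

/-- **Finiteness of the ratios over `K`.** -/
theorem ratioK' (K : Type) [Field K] [NumberField K] (S : Set (Pl K)) (hS : S.Finite) {d m : ℕ}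
    {n χ : ℤ} (H : Sg d n χ) (hdm : Adm d m) (hmn : (m : ℤ) ∣ n - 1) :
    ∃ R : Set K, R.Finite ∧ ∀ α b : K, α ≠ 0 → (∀ v ∉ S, (m : ℤ) ∣ o v α) →
      (∀ x y : K, x ≠ 0 → y ≠ 0 → x ≠ y → Per (F n α b) (some x) →
        Per (F n α b) (some y) → x / y ∈ R) ∧
      (∀ (u w z : K) (k : ℕ), u ≠ 0 → w ≠ 0 → z ^ d = w ^ d → z ≠ w →
        (F n α b)^[k + 1] (some w) = some w →
        (F n α b)^[k + 1] (some u) = some z → u ^ d ≠ w ^ d → u / w ∈ R) := by
  have hd0 : 0 < d := by have := H.hd; omega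
  have : NeZero d := ⟨by omega⟩
  let L := CyclotomicField d K
  have hζ : IsPrimitiveRoot (IsCyclotomicExtension.zeta d K L) d :=
    IsCyclotomicExtension.zeta_spec d K L
  obtain ⟨S1, hS1, HM⟩ := GM_of hd0 hζ
  have H0 := GM0_of hd0 hζ
  set φ := algebraMap K L with hφ
  obtain ⟨T, hT, HT⟩ := S_up φ S hS
  obtain ⟨R, hR, HR⟩ := ratioL (S1 := S1 ∪ T) H hdm hmn H0 (fun ζ hζ => by
    rwa [Polynomial.mem_nthRootsFinset hd0] at hζ) (hS1.union hT)
    (fun v hv => HM v (fun h => hv (Or.inl h)))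
  have hinj := φ.injective
  refine ⟨φ ⁻¹' R, hR.preimage hinj.injOn, fun α b hα hmα => ?_⟩
  have hα' : φ α ≠ 0 := (_root_.map_ne_zero φ).mpr hα
  obtain ⟨H1, H2⟩ := HR (φ α) (φ b) hα' (fun w hw => by
    obtain ⟨v, hv, r, hr, hrw⟩ := HT w (fun h => hw (Or.inr h))
    rw [hrw]
    exact Dvd.dvd.mul_left (hmα v hv) _)
  have hsc : ∀ P : Option K, Option.map φ (F n α b P) =
      F n (φ α) (φ b) (Option.map φ P) := fun P => F_map φ n α b P
  have hscn : ∀ (k : ℕ) (P : Option K), Option.map φ ((F n α b)^[k] P) =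
      (F n (φ α) (φ b))^[k] (Option.map φ P) := by
    intro k
    induction k with
    | zero => intro P; rfl
    | succ k ih => intro P; rw [Function.iterate_succ_apply, Function.iterate_succ_apply, ih, hsc]
  refine ⟨?_, ?_⟩
  · intro x y hx hy hxy hPx hPy
    show φ (x / y) ∈ R
    rw [map_div₀]
    have h1 := hPx.push (Option.map φ) hsc
    have h2 := hPy.push (Option.map φ) hsc
    rw [Option.map_some] at h1 h2
    exact H1 _ _ ((_root_.map_ne_zero φ).mpr hx) ((_root_.map_ne_zero φ).mpr hy)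
      (fun h => hxy (hinj h)) h1 h2
  · intro u w z k hu hw hz hzw e1 e2 hne
    show φ (u / w) ∈ R
    rw [map_div₀]
    have hw' : φ w ≠ 0 := (_root_.map_ne_zero φ).mpr hw
    have hη : φ z / φ w ∈ nthRootsFinset d (1 : L) := by
      apply H0.mem
      rw [div_pow, ← map_pow, ← map_pow, hz, div_self]
      rw [map_pow]
      exact pow_ne_zero _ hw'
    have hη1 : φ z / φ w ≠ 1 := by
      intro h
      rw [div_eq_one_iff_eq hw'] at h
      exact hzw (hinj h)
    have f1 := hscn (k + 1) (some w)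
    have f2 := hscn (k + 1) (some u)
    rw [e1, Option.map_some] at f1
    rw [e2, Option.map_some, Option.map_some] at f2
    refine H2 (φ u) (φ w) (φ z / φ w) k ((_root_.map_ne_zero φ).mpr hu) hw' hη hη1 f1.symm ?_ ?_
    · rw [div_mul_cancel₀ _ hw']
      exact f2.symm
    · rw [← map_pow, ← map_pow]
      exact fun h => hne (hinj h)

end Pool.Agent.Helper80.LA
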