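import Mathlib
import Pool.Agent.Helper80.LA.Rat
import Pool.Agent.Helper80.SG.FibCount

set_option autoImplicit false

open IsDedekindDomain NumberField Polynomial

namespace Pool.Agent.Helper80.LA

open Pool.Agent.Helper80.UC Pool.Agent.Helper80.QP Pool.Agent.Helper80.SG

/-- a general counting lemma for preperiodic points -/
theorem abs_count {α : Type*} (f : α → α) (B1 q D : ℕ) (Q : Finset α) (hQ : Q.card ≤ q)
    (hper : {P | Per f P}.encard ≤ B1) (hperQ : ∀ P, Per f P → P ∈ Q)
    (hfib : ∀ P, ∃ T : Finset α, T.card ≤ D ∧ ∀ U, f U = P → U ∈ T)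
    (hm : ∀ (U W Z : α) (k : ℕ), f^[k + 1] W = W → f^[k + 1] U = Z → f Z = f W → Z ≠ W →
      f U ≠ f W → U ∈ Q) :
    {P | Pre f P}.encard ≤ ((∑ i ∈ Finset.range (B1.factorial + 1), D ^ i * q : ℕ) : ℕ∞) := by
  classical
  set R := B1.factorial with hR
  have hR0 : 0 < R := Nat.factorial_pos _
  have hPfin : {P | Per f P}.Finite := Set.finite_of_encard_le_coe hper
  have hPc : hPfin.toFinset.card ≤ B1 := by
    rw [hPfin.encard_eq_coe_toFinset_card] at hper
    exact_mod_cast hper
  have hA : ∀ W, Per f W → f^[R] W = W := by
    intro W hW
    refine fix_fact hW hPfin.toFinset (fun k => ?_) hPc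
    rw [hPfin.mem_toFinset]
    exact hW.iter k
  -- the levels
  have hB : ∀ y, Pre f y → ∃ i ≤ R, f^[i] y ∈ Q := by
    intro y hy
    have hex : ∃ l, Per f (f^[l] y) := hy.ev
    set l := Nat.find hex with hl
    have hlP : Per f (f^[l] y) := Nat.find_spec hex
    have hlm : ∀ m < l, ¬ Per f (f^[m] y) := fun m hm => Nat.find_min hex hm
    by_cases hlR : l ≤ R
    · exact ⟨l, hlR, hperQ _ hlP⟩
    · push Not at hlR
      obtain ⟨i, j, hiR, hlj, hj1⟩ : ∃ i j, i < R ∧ l = (R * j + i) + 1 ∧ 1 ≤ j := by
        refine ⟨(l - 1) % R, (l - 1) / R, Nat.mod_lt _ hR0, ?_, ?_⟩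
        · rw [Nat.div_add_mod]
          omega
        · rw [Nat.one_le_div_iff hR0]
          omega
      refine ⟨i, hiR.le, ?_⟩
      set U := f^[i] y with hU
      set Z := f^[R * j] U with hZ
      have hzl : Z = f^[R * j + i] y := by rw [hZ, hU, ← Function.iterate_add_apply]
      have hznp : ¬ Per f Z := by
        rw [hzl]
        exact hlm _ (by omega)
      have hzp : Per f (f Z) := by
        rw [hzl, ← Function.iterate_succ_apply' f]
        rw [hlj] at hlP
        exact hlP
      have hfixz : f^[R] (f Z) = f Z := hA _ hzp
      set W := f^[R - 1] (f Z) with hW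
      have hperw : Per f W := hzp.iter _
      have hGw : f W = f Z := by
        rw [hW, ← Function.iterate_succ_apply' f, show (R - 1).succ = R by omega, hfixz]
      have hzw : Z ≠ W := by
        intro h
        apply hznp
        rw [h]
        exact hperw
      have hfixw : f^[R * j] W = W := by
        rw [Function.iterate_mul]
        exact Function.iterate_fixed (hA W hperw) j
      have hne : f U ≠ f W := by
        intro h
        have h2 : Per f (f^[i + 1] y) := by
          rw [Function.iterate_succ_apply', ← hU, h]
          exact hperw.map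
        have hjR : R ≤ R * j := Nat.le_mul_of_pos_right _ hj1
        exact hlm (i + 1) (by omega) h2
      obtain ⟨n, hn⟩ : ∃ n, R * j = n + 1 := by
        have : 0 < R * j := Nat.mul_pos hR0 hj1
        exact ⟨R * j - 1, by omega⟩
      rw [hn] at hfixw hZ
      exact hm U W Z n hfixw hZ.symm hGw.symm hzw hne
  -- iterated preimages
  have hpre : ∀ i : ℕ, ∃ T : Finset α, T.card ≤ D ^ i * q ∧ ∀ y, f^[i] y ∈ Q → y ∈ T := by
    intro i
    induction i with
    | zero => exact ⟨Q, by simpa using hQ, fun y hy => hy⟩
    | succ i ih =>
      obtain ⟨T, hT, hT'⟩ := ih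
      choose G hG hG' using hfib
      refine ⟨T.biUnion G, ?_, fun y hy => ?_⟩
      · calc (T.biUnion G).card ≤ T.card * D := Finset.card_biUnion_le_card_mul _ _ _ fun P _ => hG P
          _ ≤ D ^ i * q * D := Nat.mul_le_mul_right _ hT
          _ = D ^ (i + 1) * q := by ring
      · rw [Function.iterate_succ_apply] at hy
        rw [Finset.mem_biUnion]
        exact ⟨f y, hT' _ hy, hG' _ _ rfl⟩
  choose T hT hT' using hpre
  have hsub : {P | Pre f P} ⊆ (((Finset.range (R + 1)).biUnion T : Finset α) : Set α) := by
    intro y hy
    obtain ⟨i, hi, h⟩ := hB y hy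
    rw [Finset.mem_coe, Finset.mem_biUnion]
    exact ⟨i, Finset.mem_range.mpr (by omega), hT' i y h⟩
  refine (Set.encard_le_encard hsub).trans ?_
  rw [Set.encard_coe_eq_coe_finsetCard]
  have h3 : ((Finset.range (R + 1)).biUnion T).card ≤ ∑ i ∈ Finset.range (R + 1), D ^ i * q :=
    Finset.card_biUnion_le.trans (Finset.sum_le_sum fun i _ => hT i)
  exact_mod_cast h3

section fib

variable {K : Type} [Field K] [NumberField K] {d : ℕ} {n χ : ℤ} {α b : K}

lemma F_inj (H : Sg d n χ) (hα : α ≠ 0) {Z W : Option K} (h : F n α b Z = F n α b W)
    (hne : Z ≠ W) : ∃ z w : K, Z = some z ∧ W = some w ∧ z ≠ 0 ∧ w ≠ 0 ∧ z ^ d = w ^ d := by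
  have hx : ∀ x : K, x ≠ 0 → α * x ^ n + b ≠ b := by
    intro x hx h
    have : α * x ^ n = 0 := by
      have := congrArg (fun z => z - b) h
      simpa using this
    exact mul_ne_zero hα (zpow_ne_zero _ hx) this
  -- special points have no partner
  have key : ∀ P Q : Option K, (P = none ∨ P = some 0) → F n α b P = F n α b Q → P = Q := by
    intro P Q hP h
    by_cases hn : 0 < n
    · rcases hP with rfl | rfl
      · rw [F_none_pos hn] at h
        cases Q with
        | none => rfl
        | some y =>
          by_cases hy : y = 0
          · subst hy; rw [F_zero_pos hn] at h; exact absurd h (by simp)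
          · rw [F_some hy] at h; exact absurd h (by simp)
      · rw [F_zero_pos hn] at h
        cases Q with
        | none => rw [F_none_pos hn] at h; exact absurd h (by simp)
        | some y =>
          by_cases hy : y = 0
          · rw [hy]
          · rw [F_some hy] at h
            exact absurd (Option.some_injective _ h).symm (hx y hy)
    · rcases hP with rfl | rfl
      · rw [F_none_neg hn] at h
        cases Q with
        | none => rfl
        | some y =>
          by_cases hy : y = 0
          · subst hy; rw [F_zero_neg hn] at h; exact absurd h (by simp)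
          · rw [F_some hy] at h
            exact absurd (Option.some_injective _ h).symm (hx y hy)
      · rw [F_zero_neg hn] at h
        cases Q with
        | none => rw [F_none_neg hn] at h; exact absurd h (by simp)
        | some y =>
          by_cases hy : y = 0
          · rw [hy]
          · rw [F_some hy] at h; exact absurd h (by simp)
  have hZ : ∃ z, Z = some z ∧ z ≠ 0 := by
    by_contra hcon
    push Not at hcon
    refine hne (key Z W ?_ h)
    cases Z with
    | none => exact Or.inl rfl
    | some z => right; rw [hcon z rfl]
  have hW : ∃ w, W = some w ∧ w ≠ 0 := by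
    by_contra hcon
    push Not at hcon
    refine hne (key W Z ?_ h.symm).symm
    cases W with
    | none => exact Or.inl rfl
    | some w => right; rw [hcon w rfl]
  obtain ⟨z, rfl, hz⟩ := hZ
  obtain ⟨w, rfl, hw⟩ := hW
  refine ⟨z, w, rfl, rfl, hz, hw, ?_⟩
  rw [F_some hz, F_some hw] at h
  have h1 := add_right_cancel (Option.some_injective _ h)
  exact (zpow_eq_iff H).mp (mul_left_cancel₀ hα h1)

omit [NumberField K] in
lemma F_fib (H : Sg d n χ) (hα : α ≠ 0) (P : Option K) :
    ∃ T : Finset (Option K), T.card ≤ 2 * d + 2 ∧ ∀ U, F n α b U = P → U ∈ T := by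
  classical
  have hd0 : 0 < d := by have := H.hd; omega
  cases P with
  | none =>
    refine ⟨{none, some 0}, (Finset.card_le_two).trans (by omega), ?_⟩
    intro U hU
    rw [Finset.mem_insert, Finset.mem_singleton]
    cases U with
    | none => exact Or.inl rfl
    | some x =>
      right
      by_contra hx
      have hx0 : x ≠ 0 := fun h => hx (by rw [h])
      rw [F_some hx0] at hU
      exact absurd hU (by simp)
  | some z =>
    set c : K := (z - b) / α with hc
    refine ⟨({none, some 0} : Finset (Option K)) ∪ ((nthRootsFinset d c).image some ∪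
      (nthRootsFinset d c⁻¹).image some), ?_, ?_⟩
    · have h1 : ∀ c : K, (nthRootsFinset d c).card ≤ d := by
        intro c
        rw [nthRootsFinset_def]
        exact (Multiset.toFinset_card_le _).trans (card_nthRoots _ _)
      refine (Finset.card_union_le _ _).trans ?_
      refine (add_le_add Finset.card_le_two ((Finset.card_union_le _ _).trans
        (add_le_add (Finset.card_image_le.trans (h1 c)) (Finset.card_image_le.trans (h1 c⁻¹))))).trans
        ?_
      omega
    · intro U hU
      rw [Finset.mem_union, Finset.mem_union, Finset.mem_insert, Finset.mem_singleton,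
        Finset.mem_image, Finset.mem_image]
      cases U with
      | none => exact Or.inl (Or.inl rfl)
      | some x =>
        by_cases hx : x = 0
        · subst hx; exact Or.inl (Or.inr rfl)
        · right
          rw [F_some hx] at hU
          have h1 : α * x ^ n + b = z := Option.some_injective _ hU
          have h2 : x ^ n = c := by
            rw [hc, ← h1, add_sub_cancel_right, mul_div_cancel_left₀ _ hα]
          rcases H.h with ⟨-, hn⟩ | ⟨-, hn⟩
          · left
            refine ⟨x, ?_, rfl⟩
            rw [Polynomial.mem_nthRootsFinset hd0]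
            rw [hn, zpow_natCast] at h2
            exact h2
          · right
            refine ⟨x, ?_, rfl⟩
            rw [Polynomial.mem_nthRootsFinset hd0]
            rw [hn, zpow_neg, zpow_natCast] at h2
            rw [← h2, inv_inv]

end fib

/-- **Uniform boundedness for `z ↦ α z^n + b`.** -/
theorem countK (K : Type) [Field K] [NumberField K] (S : Set (Pl K)) (hS : S.Finite) {d m : ℕ}
    {n χ : ℤ} (H : Sg d n χ) (hdm : Adm d m) (hmn : (m : ℤ) ∣ n - 1) :
    ∃ C : ℕ, ∀ α b : K, α ≠ 0 → (∀ v ∉ S, (m : ℤ) ∣ o v α) →
      {P : Option K | Pre (F n α b) P}.encard ≤ C := by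
  classical
  obtain ⟨R, hR, HR⟩ := ratioK' K S hS H hdm hmn
  set B1 : ℕ := R.ncard + 3 with hB1
  set q : ℕ := B1 + (2 + R.ncard * B1) with hq
  refine ⟨∑ i ∈ Finset.range (B1.factorial + 1), (2 * d + 2) ^ i * q, fun α b hα hmα => ?_⟩
  obtain ⟨H1, H2⟩ := HR α b hα hmα
  set f := F n α b with hf
  have hRc : hR.toFinset.card = R.ncard := (Set.ncard_eq_toFinset_card R hR).symm
  have hper : {P | Per f P}.encard ≤ B1 := by
    by_cases hy : ∃ y : K, y ≠ 0 ∧ Per f (some y)
    · obtain ⟨y, hy0, hy⟩ := hy
      have hsub : {P | Per f P} ⊆ (((({none, some 0, some y} : Finset (Option K)) ∪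
          hR.toFinset.image (fun r => some (r * y))) : Finset (Option K)) : Set (Option K)) := by
        intro P hP
        rw [Finset.mem_coe, Finset.mem_union, Finset.mem_image]
        simp only [Finset.mem_insert, Finset.mem_singleton]
        cases P with
        | none => left; left; rfl
        | some x =>
          by_cases hx : x = 0
          · subst hx; left; right; left; rfl
          · by_cases hxy : x = y
            · subst hxy; left; right; right; rfl
            · right
              exact ⟨x / y, hR.mem_toFinset.mpr (H1 x y hx hy0 hxy hP hy),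
                by rw [div_mul_cancel₀ _ hy0]⟩
      refine (Set.encard_le_encard hsub).trans ?_
      rw [Set.encard_coe_eq_coe_finsetCard]
      have h1 : ((({none, some 0, some y} : Finset (Option K)) ∪
          hR.toFinset.image (fun r => some (r * y))) : Finset (Option K)).card ≤ B1 := by
        refine (Finset.card_union_le _ _).trans ?_
        have := Finset.card_le_three (a := (none : Option K)) (b := some 0) (c := some y)
        have h2 : (hR.toFinset.image (fun r => some (r * y))).card ≤ R.ncard :=
          Finset.card_image_le.trans hRc.le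
        omega
      exact_mod_cast h1
    · have hsub : {P | Per f P} ⊆ ((({none, some 0} : Finset (Option K))) : Set (Option K)) := by
        intro P hP
        rw [Finset.mem_coe]
        simp only [Finset.mem_insert, Finset.mem_singleton]
        cases P with
        | none => left; rfl
        | some x =>
          right
          by_contra hx
          exact hy ⟨x, fun h => hx (by rw [h]), hP⟩
      refine (Set.encard_le_encard hsub).trans ?_
      rw [Set.encard_coe_eq_coe_finsetCard]
      have := Finset.card_le_two (a := (none : Option K)) (b := some 0)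
      exact_mod_cast this.trans (by omega)
  have hPfin : {P | Per f P}.Finite := Set.finite_of_encard_le_coe hper
  have hPc : hPfin.toFinset.card ≤ B1 := by
    have h1 := hper
    rw [hPfin.encard_eq_coe_toFinset_card] at h1
    exact_mod_cast h1
  let Q : Finset (Option K) := hPfin.toFinset ∪ (({none, some 0} : Finset (Option K)) ∪
    hR.toFinset.biUnion fun r => hPfin.toFinset.image (Option.map (fun w => r * w)))
  refine abs_count f B1 q (2 * d + 2) Q ?_ hper ?_ (fun P => F_fib H hα P) ?_
  · refine (Finset.card_union_le _ _).trans ?_
    refine add_le_add hPc ((Finset.card_union_le _ _).trans ?_)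
    refine add_le_add Finset.card_le_two ?_
    have h1 := Finset.card_biUnion_le_card_mul hR.toFinset
      (fun r => hPfin.toFinset.image (Option.map (fun w => r * w))) B1
      (fun r _ => Finset.card_image_le.trans hPc)
    rw [hRc] at h1
    exact h1
  · intro P hP
    exact Finset.mem_union_left _ (hPfin.mem_toFinset.mpr hP)
  · intro U W Z k e1 e2 e3 hne hU
    apply Finset.mem_union_right
    by_cases hU0 : U = none ∨ U = some 0
    · apply Finset.mem_union_left
      simp only [Finset.mem_insert, Finset.mem_singleton]
      exact hU0
    · apply Finset.mem_union_right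
      push Not at hU0
      obtain ⟨u, rfl⟩ := Option.ne_none_iff_exists'.mp hU0.1
      have hu0 : u ≠ 0 := fun h => hU0.2 (by rw [h])
      obtain ⟨z, w, rfl, rfl, hz, hw, hzw⟩ := F_inj H hα e3 hne
      have hud : u ^ d ≠ w ^ d := by
        intro h
        apply hU
        exact F_zeta H hw hu0 h
      have h1 := H2 u w z k hu0 hw hzw (fun h => hne (by rw [h])) e1 e2 hud
      rw [Finset.mem_biUnion]
      refine ⟨u / w, hR.mem_toFinset.mpr h1, ?_⟩
      rw [Finset.mem_image]
      refine ⟨some w, hPfin.mem_toFinset.mpr ⟨k + 1, by omega, e1⟩, ?_⟩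
      rw [Option.map_some, div_mul_cancel₀ _ hw]

end Pool.Agent.Helper80.LA
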